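import Pool.Agent.H6.MIC.EntB

/-!
# The digits of the heights over coarse labels, given fine labels: the count

`entA`.
-/

set_option autoImplicit false

namespace Pool.MIC6

open Finset MvPolynomial
open Pool.Agent.H49.Ent Pool.Agent.H32.Dense Pool.STK Pool.KS3 Pool.STAT Pool.STAT.CLO
open Pool.BFL (Pl CB Pb P2 MC alt)

/-- The data of the count: coarse labels `Φ` with precisions `g`, fine labels `Ψ` with precisions
`g'`, both functions of the context `c`, and the time `t` is a function of the context. -/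
structure TwoL {Ω Γ : Type} (n K S : ℕ) (q : Ω → ℝ) (X : Ω → ℕ → ℝ) (c : Ω → Γ) (t : Γ → ℝ)
    (Φ Ψ : Γ → ℕ → PN) (g g' : ℕ → ℕ) : Prop where
  time : ∀ ω, 0 < q ω → X ω 0 = t (c ω)
  triΦ : ∀ x, TriN (Φ x)
  triΨ : ∀ x, TriN (Ψ x)
  degΦ : ∀ x j, (Φ x j).totalDegree ≤ K
  degΨ : ∀ x j, (Ψ x j).totalDegree ≤ K
  g_le : ∀ l, 1 ≤ l → l ≤ n → g l ≤ g' l
  g_ge : ∀ l, 1 ≤ l → l ≤ n → g' l ≤ g l + S
  hgt : ∀ ω, 0 < q ω → ∀ l, 1 ≤ l → l ≤ n → |X ω l - eval (X ω) (Φ (c ω) l)| ≤ 1 / 2 ^ g l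
  hgt' : ∀ ω, 0 < q ω → ∀ l, 1 ≤ l → l ≤ n → |X ω l - eval (X ω) (Ψ (c ω) l)| ≤ 1 / 2 ^ g' l

variable {Ω Γ : Type} {n K S : ℕ} {q : Ω → ℝ} {X : Ω → ℕ → ℝ} {c : Ω → Γ} {t : Γ → ℝ}
  {Φ Ψ : Γ → ℕ → PN} {g g' : ℕ → ℕ}

/-- The difference of the labels is small on the natural box of the fine labels. -/
def GdL (m : ℕ) (A : ℝ) (X : Ω → ℕ → ℝ) (c : Ω → Γ) (t : Γ → ℝ) (Φ Ψ : Γ → ℕ → PN)
    (g g' : ℕ → ℕ) (l : ℕ) (ω : Ω) : Prop :=
  ∀ b : Fin m → ℝ, (∀ i, |b i - xi g' (Ψ (c ω)) (X ω) m i| ≤ 2 / 2 ^ 0) →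
    |eval b (natF m g' (t (c ω)) (Ψ (c ω)) (Ψ (c ω) l - Φ (c ω) l))| ≤ A * (2 / 2 ^ g l)

theorem TwoL.xi_le (h : TwoL n K S q X c t Φ Ψ g g') {ω : Ω} (hω : 0 < q ω) {m : ℕ} (hm : m ≤ n)
    (i : Fin m) : |xi g' (Ψ (c ω)) (X ω) m i| ≤ 1 := by
  have h1 := h.hgt' ω hω (i + 1) (by omega) (by omega)
  unfold xi
  have hp : (0 : ℝ) < 2 ^ g' ((i : ℕ) + 1) := by positivity
  rw [abs_mul, abs_of_pos hp]
  have h2 := mul_le_mul_of_nonneg_left h1 hp.le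
  rwa [mul_one_div_cancel hp.ne'] at h2

theorem TwoL.dvars (h : TwoL n K S q X c t Φ Ψ g g') (x : Γ) (l : ℕ) :
    (Ψ x l - Φ x l).vars ⊆ range l := by
  classical
  exact Finset.Subset.trans (vars_sub_subset _) (Finset.union_subset (h.triΨ x l) (h.triΦ x l))

theorem TwoL.ddeg (h : TwoL n K S q X c t Φ Ψ g g') (x : Γ) (l : ℕ) :
    (Ψ x l - Φ x l).totalDegree ≤ K :=
  (totalDegree_sub _ _).trans (max_le (h.degΨ x l) (h.degΦ x l))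

/-- **Remez.** -/
theorem gd_prob (n K : ℕ) : ∃ CR : ℝ, 1 ≤ CR ∧ ∀ {Ω Γ : Type} [Fintype Ω] {S : ℕ} {q : Ω → ℝ}
    {X : Ω → ℕ → ℝ} {c : Ω → Γ} {t : Γ → ℝ} {Φ Ψ : Γ → ℕ → PN} {g g' : ℕ → ℕ} {L : ℕ} {δ : ℝ},
    IsLaw q → TwoL n K S q X c t Φ Ψ g g' → 1 ≤ L →
    (((n - 1 : ℕ) : ℝ) - δ) * (L * Real.log 2) ≤ CH q (fun ω (l : Fin (n - 1)) =>
      ⌊(2 : ℝ) ^ L * xi g' (Ψ (c ω)) (X ω) (n - 1) l⌋) c →
    Pb q (fun ω => ¬ ∀ l, 1 ≤ l → l ≤ n →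
      GdL (n - 1) (CR * 2 ^ ((n - 1) * (K * (K + 1) ^ (n + 1)) * L)) X c t Φ Ψ g g' l ω) ≤
      n * (δ + 3 * (n - 1 : ℕ) / L + CR / L) := by
  obtain ⟨CR, h1, hR⟩ := Pool.RM.rm_cel (n - 1) (K * (K + 1) ^ (n + 1)) 2 one_le_two
  refine ⟨CR, h1, ?_⟩
  intro Ω Γ _ S q X c t Φ Ψ g g' L δ hq h hL hf
  refine pb_bad hq.nonneg fun l l1 l2 => ?_
  have hB : ∀ ω, 0 < q ω → ∀ i, |xi g' (Ψ (c ω)) (X ω) (n - 1) i| ≤ 1 := fun ω hω i =>
    h.xi_le hω (by omega) i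
  have h2 := full_cell hq (B := fun ω => xi g' (Ψ (c ω)) (X ω) (n - 1)) hB hL hf
  have h3 := hR Ω Γ q L (fun _ _ => 0) (fun ω => xi g' (Ψ (c ω)) (X ω) (n - 1)) c
    (fun x => natF (n - 1) g' (t x) (Ψ x) (Ψ x l - Φ x l)) (fun _ => True)
    (fun _ => 2 / 2 ^ g l) (δ + 3 * (n - 1 : ℕ) / L) hq
    (fun x => deg_natF (h.triΨ x) (h.degΨ x) l2 (h.dvars x l) (h.ddeg x l)) hL
    (fun _ => by positivity) h2 (fun ω hω _ => by
      rw [eval_natF (h.triΨ _) (h.dvars _ l) (by omega) (h.time ω hω), map_sub]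
      have e1 := h.hgt ω hω l l1 l2
      have e2 := h.hgt' ω hω l l1 l2
      have e3 : (1 : ℝ) / 2 ^ g' l ≤ 1 / 2 ^ g l :=
        one_div_le_one_div_of_le (by positivity)
          (pow_le_pow_right₀ one_le_two (h.g_le l l1 l2))
      have e4 : eval (X ω) (Ψ (c ω) l) - eval (X ω) (Φ (c ω) l) =
          (X ω l - eval (X ω) (Φ (c ω) l)) - (X ω l - eval (X ω) (Ψ (c ω) l)) := by ring
      rw [e4]
      refine (abs_sub _ _).trans ?_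
      have e5 : (2 : ℝ) / 2 ^ g l = 1 / 2 ^ g l + 1 / 2 ^ g l := by ring
      rw [e5]
      linarith)
  exact (Pool.STAT.LAD.Pb_mono' hq.nonneg fun ω _ hω => ⟨trivial, hω⟩).trans h3

/-- Two samples with the same context, the first one good, the digits before `i` are equal. -/
theorem TwoL.pair {C₀ A T : ℝ} {d : ℕ} (h : TwoL n K S q X c t Φ Ψ g g') (hA : 1 ≤ 2 * A)
    (hT : T = 2 ^ (S + 1) * (C₀ * (2 * A))) (hT0 : 0 ≤ T)
    (htri : ∀ (Φ Ψ : ℕ → PN) (g g' : ℕ → ℕ) (t A : ℝ) (S d : ℕ), TriN Φ → TriN Ψ →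
      (∀ j, (Φ j).totalDegree ≤ K) → (∀ j, (Ψ j).totalDegree ≤ K) →
      1 ≤ A → (∀ l, 1 ≤ l → l ≤ n → g' l ≤ g l + S) →
      (∀ l, 1 ≤ l → l ≤ n → ∀ y : ℕ → ℝ, (∀ j < l, |y j| ≤ 1) →
        |eval y (nat0 g' t Ψ (Ψ l - Φ l))| ≤ A / 2 ^ g l) →
      ∀ b b' : ℕ → ℝ, b 0 = t → b' 0 = t →
      (∀ l, 1 ≤ l → l ≤ n → |b l - eval b (Ψ l)| ≤ 1 / 2 ^ g' l) →
      (∀ l, 1 ≤ l → l ≤ n → |b' l - eval b' (Ψ l)| ≤ 1 / 2 ^ g' l) →
      ∀ i, 1 ≤ i → i ≤ n →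
      (∀ j, 1 ≤ j → j < i → |(b j - eval b (Φ j)) - (b' j - eval b' (Φ j))| ≤ 1 / 2 ^ (g j + d)) →
      |(b i - eval b (Φ i)) - (b' i - eval b' (Φ i))| ≤
        2 / 2 ^ g' i + (2 ^ (S + 1) * (C₀ * A)) ^ n / 2 ^ (g i + d))
    (hd : T ^ n * (2 : ℝ) ^ S ≤ 2 ^ d) {ω ω' : Ω} (hω : 0 < q ω) (hω' : 0 < q ω')
    (hc : c ω = c ω')
    (hg : ∀ l, 1 ≤ l → l ≤ n → GdL (n - 1) A X c t Φ Ψ g g' l ω) {i : ℕ} (h1 : 1 ≤ i)
    (hi : i ≤ n) (hb : ∀ j, 1 ≤ j → j < i →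
      |(X ω j - eval (X ω) (Φ (c ω) j)) - (X ω' j - eval (X ω') (Φ (c ω) j))| ≤
        1 / 2 ^ (g j + d)) :
    |(X ω i - eval (X ω) (Φ (c ω) i)) - (X ω' i - eval (X ω') (Φ (c ω') i))| ≤ 3 / 2 ^ g' i := by
  have h2 := htri (Φ (c ω)) (Ψ (c ω)) g g' (t (c ω)) (2 * A) S d (h.triΦ _) (h.triΨ _)
    (h.degΦ _) (h.degΨ _) hA h.g_ge (fun l l1 l2 y hy => by
      have h3 := cube_of_box (h.triΨ (c ω)) (h.dvars (c ω) l) (m := n - 1) (by omega)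
        (fun i => h.xi_le hω (by omega) i) (hg l l1 l2) y hy
      refine h3.trans (le_of_eq ?_)
      ring) (X ω) (X ω') (h.time ω hω) (by rw [hc]; exact h.time ω' hω') (h.hgt' ω hω)
    (by rw [hc]; exact h.hgt' ω' hω') i h1 hi hb
  rw [← hc]
  refine h2.trans ?_
  rw [← hT]
  have e1 : T ^ n / 2 ^ (g i + d) ≤ 1 / 2 ^ g' i := by
    rw [div_le_div_iff₀ (by positivity) (by positivity), one_mul]
    have e2 : (2 : ℝ) ^ g' i ≤ 2 ^ g i * 2 ^ S := by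
      rw [← pow_add]
      exact pow_le_pow_right₀ one_le_two (h.g_ge i h1 hi)
    have hC : (0 : ℝ) ≤ T ^ n := pow_nonneg hT0 n
    calc T ^ n * 2 ^ g' i ≤ T ^ n * (2 ^ g i * 2 ^ S) := mul_le_mul_of_nonneg_left e2 hC
      _ = 2 ^ g i * (T ^ n * 2 ^ S) := by ring
      _ ≤ 2 ^ g i * 2 ^ d := mul_le_mul_of_nonneg_left hd (by positivity)
      _ = 2 ^ (g i + d) := by rw [pow_add]
  have e3 : (3 : ℝ) / 2 ^ g' i = 2 / 2 ^ g' i + 1 / 2 ^ g' i := by ring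
  rw [e3]
  linarith

/-- The digits of the heights over the coarse labels. -/
noncomputable def dgC (X : Ω → ℕ → ℝ) (c : Ω → Γ) (Φ : Γ → ℕ → PN) (g u : ℕ → ℕ) (n : ℕ) (ω : Ω)
    (l : Fin n) : ℤ :=
  ⌊(2 : ℝ) ^ (g (l + 1) + u (l + 1)) * (X ω (l + 1) - eval (X ω) (Φ (c ω) (l + 1)))⌋

theorem hgt_diff {a : ℕ} {x y : ℝ} {r : ℝ} (h : |x - y| ≤ r) :
    |(((⌊(2 : ℝ) ^ a * x⌋ - ⌊(2 : ℝ) ^ a * y⌋ : ℤ)) : ℝ)| ≤ 2 ^ a * r + 1 := by
  refine Pool.STAT.LAD.fl_le ?_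
  rw [← mul_sub, abs_mul, abs_of_pos (by positivity : (0 : ℝ) < 2 ^ a)]
  exact mul_le_mul_of_nonneg_left h (by positivity)

theorem floor_near {a : ℕ} {x y : ℝ} (h : ⌊(2 : ℝ) ^ a * x⌋ = ⌊(2 : ℝ) ^ a * y⌋) :
    |x - y| ≤ 1 / 2 ^ a := by
  have h1 := (Int.abs_sub_lt_one_of_floor_eq_floor h).le
  rw [← mul_sub, abs_mul, abs_of_pos (by positivity : (0 : ℝ) < 2 ^ a)] at h1
  rw [le_div_iff₀ (by positivity)]
  linarith

open Classical in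
/-- **The count.** Let the base be full over the fine labels in the scales `L`. Then the entropy of
the digits of the heights over the coarse labels, given the context, is at most the number of the
digits behind the fine labels, if the digits of the base contain all the digits up to `d`. -/
theorem entA (n K : ℕ) : ∃ C : ℕ, 1 ≤ C ∧ ∀ {Ω Γ : Type} [Fintype Ω] {S : ℕ} {q : Ω → ℝ}
    {X : Ω → ℕ → ℝ} {c : Ω → Γ} {t : Γ → ℝ} {Φ Ψ : Γ → ℕ → PN} {g g' u : ℕ → ℕ} {L d : ℕ}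
    {δ : ℝ}, IsLaw q → TwoL n K S q X c t Φ Ψ g g' → 1 ≤ L →
    (((n - 1 : ℕ) : ℝ) - δ) * (L * Real.log 2) ≤ CH q (fun ω (l : Fin (n - 1)) =>
      ⌊(2 : ℝ) ^ L * xi g' (Ψ (c ω)) (X ω) (n - 1) l⌋) c →
    n * (S + 1 + C * L) + S ≤ d → (∀ l, 1 ≤ l → l < n → d ≤ u l) →
    CH q (dgC X c Φ g u n) c ≤ ∑ l ∈ range n,
      (max 0 (((g (l + 1) + u (l + 1) : ℕ) : ℝ) - g' (l + 1)) * Real.log 2 + Real.log 9 +
        n * (δ + C / L) * (u (l + 1) * Real.log 2 + Real.log 9)) := by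
  obtain ⟨CR, hCR, hR⟩ := gd_prob n K
  obtain ⟨C₀, hC₀, htri⟩ := tri_est n K
  obtain ⟨C, hC1, hC2, hC⟩ := num_exp hC₀ hCR ((n - 1) * (K * (K + 1) ^ (n + 1))) n
  refine ⟨C + 3 * n, by omega, ?_⟩
  intro Ω Γ _ S q X c t Φ Ψ g g' u L d δ hq h hL hf hd hu
  obtain ⟨A, hA⟩ : ∃ A : ℝ, A = CR * 2 ^ ((n - 1) * (K * (K + 1) ^ (n + 1)) * L) := ⟨_, rfl⟩
  have hG := hR hq h hL hf
  rw [← hA] at hG
  have hA1 : 1 ≤ 2 * A := by
    have h1 : (1 : ℝ) ≤ 2 ^ ((n - 1) * (K * (K + 1) ^ (n + 1)) * L) := one_le_pow₀ one_le_two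
    rw [hA]
    nlinarith
  obtain ⟨T, hT⟩ : ∃ T : ℝ, T = 2 ^ (S + 1) * (C₀ * (2 * A)) := ⟨_, rfl⟩
  have hT0 : 0 ≤ T := by
    rw [hT]
    have : 0 ≤ C₀ := zero_le_one.trans hC₀
    have : 0 ≤ 2 * A := zero_le_one.trans hA1
    positivity
  have hTd : T ^ n * (2 : ℝ) ^ S ≤ 2 ^ d := by
    have h1 := hC S L d hL (by
      have h2 : n * (S + 1 + C * L) ≤ n * (S + 1 + (C + 3 * n) * L) := by
        refine Nat.mul_le_mul_left n ?_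
        have := Nat.mul_le_mul_right L (Nat.le_add_right C (3 * n))
        omega
      omega)
    rw [hT, hA]
    have e1 : (2 : ℝ) * (CR * 2 ^ ((n - 1) * (K * (K + 1) ^ (n + 1)) * L)) =
        2 * CR * 2 ^ ((n - 1) * (K * (K + 1) ^ (n + 1)) * L) := by ring
    rw [e1]
    exact h1
  obtain ⟨G, hGdef⟩ : ∃ G : Ω → Prop, G = fun ω => ∀ l, 1 ≤ l → l ≤ n →
      GdL (n - 1) A X c t Φ Ψ g g' l ω := ⟨_, rfl⟩
  obtain ⟨b, hb⟩ : ∃ b : ℕ → Ω → ℝ, b = fun i ω => if G ω then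
      (2 : ℝ) ^ (g (i + 1) + u (i + 1)) * (3 / 2 ^ g' (i + 1)) + 1 else
      (2 : ℝ) ^ (u (i + 1) + 1) + 1 := ⟨_, rfl⟩
  have key := ch_vec hq (dgC X c Φ g u n) c b (fun i ω ω' hω hω' hc hj => by
    rw [hb]
    dsimp only
    split_ifs with hg
    · refine hgt_diff (h.pair hA1 hT hT0 htri hTd hω hω' hc (by rw [hGdef] at hg; exact hg)
        (by omega) (by omega) fun j j1 j2 => ?_)
      have h1 := hj ⟨j - 1, by omega⟩ (by
        show (_ : ℕ) < _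
        simp only
        omega)
      unfold dgC at h1
      simp only [Nat.sub_add_cancel j1] at h1
      rw [← hc] at h1
      refine (floor_near h1).trans (one_div_le_one_div_of_le (by positivity)
        (pow_le_pow_right₀ one_le_two ?_))
      have := hu j j1 (by omega)
      omega
    · have h1 := h.hgt ω hω (i + 1) (by omega) (by omega)
      have h2 := h.hgt ω' hω' (i + 1) (by omega) (by omega)
      refine (hgt_diff (r := 2 / 2 ^ g (i + 1)) ?_).trans (le_of_eq ?_)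
      · refine (abs_sub _ _).trans ((add_le_add h1 h2).trans (le_of_eq ?_))
        ring
      · rw [pow_add, pow_succ]
        field_simp)
  refine key.trans (Finset.sum_le_sum fun i _ => ?_)
  have hl : 0 ≤ Real.log 2 := (Real.log_pos one_lt_two).le
  have hl9 : 0 ≤ Real.log 9 := (Real.log_pos (by norm_num)).le
  have e1 := ex_split hq G (f := fun ω => Real.log (2 * b i ω + 1))
    (a := max 0 (((g (i + 1) + u (i + 1) : ℕ) : ℝ) - g' (i + 1)) * Real.log 2 + Real.log 9)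
    (b := u (i + 1) * Real.log 2 + Real.log 9)
    (add_nonneg (mul_nonneg (le_max_left _ _) hl) hl9)
    (add_nonneg (mul_nonneg (Nat.cast_nonneg _) hl) hl9)
    (fun ω hω => by
      rw [hb]
      dsimp only
      rw [if_pos hω]
      exact log_good _ _)
    (fun ω hω => by
      rw [hb]
      dsimp only
      rw [if_neg hω]
      exact log_bad _)
  refine e1.trans (add_le_add le_rfl (mul_le_mul_of_nonneg_right ?_
    (add_nonneg (mul_nonneg (Nat.cast_nonneg _) hl) hl9)))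
  rw [hGdef]
  refine hG.trans (mul_le_mul_of_nonneg_left ?_ (Nat.cast_nonneg n))
  have hL' : (0 : ℝ) < L := by exact_mod_cast hL
  have h5 : ((n - 1 : ℕ) : ℝ) ≤ n := by exact_mod_cast Nat.sub_le n 1
  rw [add_assoc, ← add_div]
  refine add_le_add le_rfl (div_le_div_of_nonneg_right ?_ hL'.le)
  push_cast
  linarith

end Pool.MIC6
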