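import Pool.Agent.H6.MIC.NfD
import Pool.Agent.H78.MIC.Top

/-!
# The nonfull rows of the facts of a class

`nf_facts`: the field `nf` of `Facts` from the records `rcd`, the rate of the target and the constant
side information.
-/

set_option autoImplicit false

namespace Pool.STAT

open Finset MvPolynomial
open Pool.Agent.H49.Ent Pool.Agent.H32.Dense Pool.STK Pool.KS3 Pool.KA Pool.KSAT Pool.PB Pool.GEN
open Pool.K2S Pool.S6C
open Pool.LEV (Law)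
open Pool.STR (Affn Nw JCB NfB NoJB2)
open CLO

variable {m : ℕ}

theorem NDat2.NF1.mono {D : NDat2} {n z M B : ℕ} {gam : ℕ → ℝ} {h C₁ C₁' : ℝ} {q : D.Ω → ℝ}
    (hF : D.NF1 n z M B gam h C₁ q) (hC : C₁ ≤ C₁') : D.NF1 n z M B gam h C₁' q := by
  intro i hi j hj r U h1 h2
  refine (hF i hi j hj r U h1 h2).trans ?_
  have : C₁ * z ≤ C₁' * z := mul_le_mul_of_nonneg_right hC (Nat.cast_nonneg z)
  linarith only [this]

theorem nfB_mono {ρ : ℝ → ℝ} {h h' η η' A B A' B' : ℝ} (hf : NfB ρ h η A B) (hh : h' ≤ h)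
    (hη : η ≤ η') (hA : A ≤ A') (hB : B' ≤ B) : NfB ρ h' η' A' B' := by
  intro Q₁ Q₂ h1 h2 h3
  refine (hf Q₁ Q₂ (hA.trans h1) h2 (h3.trans hB)).trans ?_
  have : (1 - h) * (Q₂ - Q₁) ≤ (1 - h') * (Q₂ - Q₁) :=
    mul_le_mul_of_nonneg_right (by linarith only [hh]) (by linarith only [h2])
  linarith only [this, hη]

/-! ### The sides on the grid -/

/-- **Sides close to the levels**, on the grid of a cell. -/
structure NearL (n : ℕ) (L : ℕ → ℝ → ℝ → ℝ) (y : ℝ × ℝ) (X : ℝ) (N M : ℕ) (θ : ℝ)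
    (b : ℕ → ℕ → ℕ → ℝ) (e : ℕ → ℕ → ℝ) : Prop where
  up : ∀ i ≤ M, ∀ j ≤ M, ∀ l < n,
    b i j l < L l (y.1 + y.2 + i * msh X N M) (y.1 + j * msh X N M)
  lo : ∀ i ≤ M, ∀ j ≤ M, ∀ l < n,
    L l (y.1 + y.2 + i * msh X N M) (y.1 + j * msh X N M) - θ * msh X N M ≤ b i j l
  e0 : ∀ i ≤ M, ∀ j ≤ M, 0 ≤ e i j
  e1 : ∀ i ≤ M, ∀ j ≤ M, e i j ≤ θ * msh X N M

/-- The numbers of the sides. -/
structure SideL (n : ℕ) (y : ℝ × ℝ) (ζ : ℝ) (X P₀ : ℝ) (B M : ℕ)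
    (b : ℕ → ℕ → ℕ → ℝ) (e : ℕ → ℕ → ℝ) : Prop where
  ζ0 : 0 < ζ
  win : 0 ≤ y.1
  thin : y.1 + (M + 1) * ζ < y.1 + y.2
  top : y.1 + y.2 + (M + 1) * ζ < 1
  pos : ∀ i ≤ M, ∀ j ≤ M, ∀ l < n, 0 < b i j l
  siz : ∀ i ≤ M, ∀ j ≤ M, ∀ l < n, b i j l + e i j + (B * M + 1) * ζ < 1
  mono : ∀ i i' : ℕ, i ≤ i' → i' ≤ M → ∀ j ≤ M, ∀ l < n, b i j l ≤ b i' j l
  lev : ∀ i ≤ M, ∀ j ≤ M, P₀ - X + ζ ≤ b i j (n - 1) ∧ b i j (n - 1) + (M + 1) * ζ ≤ P₀ + 2 * X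

theorem CellL.side {n N M B : ℕ} {L : ℕ → ℝ → ℝ → ℝ} {ε T θ : ℝ} {y : ℝ × ℝ} {X : ℝ}
    {la mu : ℕ → ℝ} (h : CellL n L ε T y X la mu) (hn : 1 ≤ n) (hN : 1 ≤ N)
    (hNT : 4 * (T + 2) ≤ N) (hNB : B + 1 ≤ N) (hB : 1 ≤ B) (hε0 : 0 ≤ ε)
    (hε : ε * (64 * (N * (M + 4))) ≤ 1) (hθ : 0 < θ) (hθ1 : θ ≤ 1 / 16)
    {b : ℕ → ℕ → ℕ → ℝ} {e : ℕ → ℕ → ℝ} (hb : NearL n L y X N M θ b e) :
    SideL n y (msh X N M) X (L (n - 1) (y.1 + y.2) y.1) B M b e := by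
  have hX := h.pos
  have hN1 : (1 : ℝ) ≤ N := by exact_mod_cast hN
  have hM0 : (0 : ℝ) ≤ M := Nat.cast_nonneg M
  obtain ⟨ζ, hζ⟩ : ∃ ζ, ζ = msh X N M := ⟨_, rfl⟩
  have hζ0 : 0 < ζ := by rw [hζ]; exact msh_pos hX hN
  have e1 : N * ((M + 4) * ζ) = X := by rw [hζ]; exact msh_mul hN
  have hMζ : ((M : ℝ) + 4) * ζ ≤ X := by
    rw [← e1]
    exact le_mul_of_one_le_left (by positivity) hN1
  have hT : 0 ≤ T := (h.mu0 0 (by omega)).trans (h.muT 0 (by omega))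
  have hε4 : ε ≤ 1 / 4 := by
    have h64 : (64 : ℝ) * 4 ≤ 64 * (N * (M + 4)) := by nlinarith only [hN1, hM0]
    nlinarith only [hε, hε0, h64]
  have hεX : ε * X ≤ ζ / 64 := by
    have h1 : ε * (64 * (N * (M + 4))) * ζ ≤ 1 * ζ := mul_le_mul_of_nonneg_right hε hζ0.le
    have h2 : ε * (64 * (N * (M + 4))) * ζ = 64 * (ε * (N * ((M + 4) * ζ))) := by ring
    rw [h2, e1] at h1
    linarith only [h1]
  have hθζ : θ * ζ ≤ ζ / 16 := by nlinarith only [hθ1, hζ0]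
  have hBM : ((B : ℝ) * M + 1) * ζ ≤ X := by
    have h1 : ((B : ℝ) * M + 1) ≤ N * (M + 4) := by
      have h2 : (B : ℝ) + 1 ≤ N := by exact_mod_cast hNB
      have h3 : (0 : ℝ) ≤ B := Nat.cast_nonneg B
      nlinarith only [h2, h3, hM0]
    have h2 := mul_le_mul_of_nonneg_right h1 hζ0.le
    rw [mul_assoc] at h2
    rwa [e1] at h2
  have hM4 : 4 * (T + 2) * ((M + 4) * ζ) ≤ X := by
    rw [← e1]
    exact mul_le_mul_of_nonneg_right hNT (by positivity)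
  have hdep := h.dep
  have hwin := h.win
  have htop := h.top
  have hsl : ∀ i ≤ M, ∀ j ≤ M, ∀ l < n, i < M + 1 →
      L l (y.1 + y.2 + i * ζ) (y.1 + j * ζ) + 3 * X ≤ 1 := by
    intro i hi j hj l hl _
    rw [hζ]
    exact h.grid_lt hN hNT hε4 hl (Nat.cast_nonneg i)
      (by have : (i : ℝ) ≤ M := by exact_mod_cast hi
          linarith only [this]) (Nat.cast_nonneg j)
      (by have : (j : ℝ) ≤ M := by exact_mod_cast hj
          linarith only [this])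
  rw [← hζ]
  refine ⟨hζ0, hX.le.trans hwin, by linarith only [hMζ, hζ0, hdep],
    by linarith only [hMζ, hζ0, htop, hX], ?_, ?_, ?_, ?_⟩
  · intro i hi j hj l hl
    have h2 := hb.lo i hi j hj l hl
    rw [← hζ] at h2
    have hi' : (i : ℝ) ≤ M := by exact_mod_cast hi
    have hj' : (j : ℝ) ≤ M := by exact_mod_cast hj
    have i0 : 0 ≤ (i : ℝ) * ζ := by positivity
    have j0 : 0 ≤ (j : ℝ) * ζ := by positivity
    have i1 : (i : ℝ) * ζ ≤ M * ζ := mul_le_mul_of_nonneg_right hi' hζ0.le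
    have j1 : (j : ℝ) * ζ ≤ M * ζ := mul_le_mul_of_nonneg_right hj' hζ0.le
    have h3 := h.low l hl (y.1 + y.2 + i * ζ) (y.1 + j * ζ)
      (by linarith only [hX, hwin, j0]) (by linarith only [hMζ, hdep, i0, j1, hζ0])
      (by linarith only [hMζ, htop, hX, i1, hζ0])
    linarith only [h2, h3, hθζ, hMζ, hdep, hwin, i0, hζ0, hX, mul_nonneg hM0 hζ0.le]
  · intro i hi j hj l hl
    have h1 := hb.up i hi j hj l hl
    have h2 := hb.e1 i hi j hj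
    have h3 := hsl i hi j hj l hl (by omega)
    rw [← hζ] at h1 h2
    linarith only [h1, h2, h3, hθζ, hMζ, hζ0, hX, hBM, mul_nonneg hM0 hζ0.le]
  · intro i i' hii hi' j hj l hl
    rcases hii.eq_or_lt with rfl | hlt
    · exact le_rfl
    have h1 := hb.up i (hii.trans hi') j hj l hl
    have h2 := hb.lo i' hi' j hj l hl
    rw [← hζ] at h1 h2
    have hi1 : (i' : ℝ) ≤ M := by exact_mod_cast hi'
    have hj' : (j : ℝ) ≤ M := by exact_mod_cast hj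
    have i0 : 0 ≤ (i : ℝ) * ζ := by positivity
    have j0 : 0 ≤ (j : ℝ) * ζ := by positivity
    have i1 : (i' : ℝ) * ζ ≤ M * ζ := mul_le_mul_of_nonneg_right hi1 hζ0.le
    have j1 : (j : ℝ) * ζ ≤ M * ζ := mul_le_mul_of_nonneg_right hj' hζ0.le
    have hii1 : (i : ℝ) + 1 ≤ i' := by exact_mod_cast hlt
    have h3 : (i : ℝ) * ζ + ζ ≤ i' * ζ := by nlinarith only [hii1, hζ0]
    have h4 := (h.law l hl).slope (y.1 + y.2 + i * ζ) (y.1 + j * ζ) (i' * ζ - i * ζ)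
      (by linarith only [hX, hwin, j0]) (by linarith only [hMζ, hdep, i0, j1, hζ0])
      (by linarith only [h3, hζ0]) (by linarith only [hMζ, htop, hX, i1, hζ0, i0])
    have e3 : y.1 + y.2 + i * ζ + (i' * ζ - i * ζ) = y.1 + y.2 + i' * ζ := by ring
    rw [e3] at h4
    have h5 := hsl i' hi' j hj l hl (by omega)
    rcases min_le_iff.1 h4 with h6 | h6
    · linarith only [h5, h6, hX]
    · linarith only [h1, h2, h3, h6, hθζ, hζ0]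
  · intro i hi j hj
    have h1 := hb.up i hi j hj (n - 1) (by omega)
    have h2 := hb.lo i hi j hj (n - 1) (by omega)
    have hi' : (i : ℝ) ≤ M := by exact_mod_cast hi
    have hj' : (j : ℝ) ≤ M := by exact_mod_cast hj
    have hi0 : (0 : ℝ) ≤ i := Nat.cast_nonneg i
    have hj0 : (0 : ℝ) ≤ j := Nat.cast_nonneg j
    have h3 := abs_le.1 (h.grid (N := N) (M := M) hN (show n - 1 < n by omega) hi0
      (by linarith only [hi']) hj0 (by linarith only [hj']))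
    rw [← hζ] at h1 h2 h3
    have m0 := h.mu0 (n - 1) (by omega)
    have m1 := h.muT (n - 1) (by omega)
    have l0 := h.la0 (n - 1) (by omega)
    have l1 := h.laT (n - 1) (by omega)
    have i0 : 0 ≤ (i : ℝ) * ζ := by positivity
    have j0 : 0 ≤ (j : ℝ) * ζ := by positivity
    have i1 : (i : ℝ) * ζ ≤ (M + 4) * ζ := mul_le_mul_of_nonneg_right (by linarith only [hi']) hζ0.le
    have j1 : (j : ℝ) * ζ ≤ (M + 4) * ζ := mul_le_mul_of_nonneg_right (by linarith only [hj']) hζ0.le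
    have k1 : mu (n - 1) * (i * ζ) ≤ T * ((M + 4) * ζ) := mul_le_mul m1 i1 i0 hT
    have k2 : (la (n - 1) - mu (n - 1)) * (j * ζ) ≤ T * ((M + 4) * ζ) :=
      (mul_le_mul_of_nonneg_right (by linarith only [l1, m0] : la (n - 1) - mu (n - 1) ≤ T)
        j0).trans (mul_le_mul_of_nonneg_left j1 hT)
    have k3 : -(T * ((M + 4) * ζ)) ≤ (la (n - 1) - mu (n - 1)) * (j * ζ) := by
      have a1 : -T * (j * ζ) ≤ (la (n - 1) - mu (n - 1)) * (j * ζ) :=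
        mul_le_mul_of_nonneg_right (by linarith only [l0, m1]) j0
      have a2 : T * (j * ζ) ≤ T * ((M + 4) * ζ) := mul_le_mul_of_nonneg_left j1 hT
      linarith only [a1, a2]
    have k4 : 0 ≤ mu (n - 1) * (i * ζ) := mul_nonneg m0 i0
    have e2 : (mu (n - 1) * i + (la (n - 1) - mu (n - 1)) * j) * ζ =
        mu (n - 1) * (i * ζ) + (la (n - 1) - mu (n - 1)) * (j * ζ) := by ring
    rw [e2] at h3
    have k5 : 0 ≤ (M + 4) * ζ := by positivity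
    constructor
    · linarith only [h2, h3.1, k3, k4, hθζ, hεX, hM4, hζ0, hX, k5, hMζ, mul_nonneg hM0 hζ0.le]
    · linarith only [h1, h3.2, k1, k2, hεX, hM4, hζ0, hX, k5, hMζ, mul_nonneg hM0 hζ0.le]

/-! ### The facts -/

variable {ι : Type*} {n₀ : ℕ}

theorem Kit.Near.nearL {Kt : Kit m ι n₀} {p : CP ι n₀} {N M : ℕ} {θ : ℝ} {b : ℕ → ℕ → ℕ → ℝ}
    {e : ℕ → ℕ → ℝ} (h : Kt.Near p N M θ b e) : NearL (n₀ + 1) (Kt.L p.k) p.y p.X N M θ b e :=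
  ⟨fun i hi j hj l hl => h.up i hi j hj l (by omega),
    fun i hi j hj l hl => h.lo i hi j hj l (by omega), h.e0, h.e1⟩

/-- The records of the facts, at one grid. -/
def Kit.Rec (Kt : Kit m ι n₀) (S : PCl m) (K' s₁ : ℕ) (sh : ℕ → ℕ) (C₂ k : ℝ) (M N : ℕ) (θ : ℝ)
    (p : CP ι n₀) : Prop :=
  Kt.FldN S K' s₁ sh M N θ p fun G J F D q =>
    RcF F (Kt.rc p N M θ J F) (up G.ϖ J) (up G.ζ J) G.M (k * up G.ζ J) (C₂ * up G.ζ J) q ∧
    ValF D (Kt.rc p N M θ J F) (up G.ϖ J) (up G.ζ J) G.M (k * up G.ζ J) q ∧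
    ExF F G.c G.n G.sh (Kt.rc p N M θ J F) (up G.ϖ J) (up G.ζ J) G.M (G.gn J)
      (k * up G.ζ J) q

/-- **The nonfull rows of the facts**, from the records. -/
theorem nf_facts {S : PCl m}
    (hpos : ∀ (τ : ℝ) (J : ℕ) (F : Fam m J) (A : F.Ω → Prop), S.St τ J F A → 0 < Pe F.p A)
    (hZ : Bas S (fun _ F _ => Zc F)) (Kt : Kit m ι n₀) (hinj : ∀ k, Inj (Kt.cs k) (n₀ + 1))
    (hcov : ∀ k, ∀ i : Fin m, i ≠ Kt.cs k n₀ → ∃ l < n₀, Kt.cs k l = i)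
    (hlaw : ∀ k, ∀ l ≤ n₀, Law (Kt.L k l))
    (hlow : ∀ k, ∀ l ≤ n₀, ∀ a w : ℝ, 0 ≤ w → w ≤ a → a ≤ 1 → a ≤ Kt.L k l a w)
    {ρ : ℝ → ℝ} {Ad : ℝ → ι → ℝ → ℝ → ℝ → Prop} {df : ι → ℝ → ℝ → ℝ}
    (hR : ∀ k, Pool.ALL.RateOf S (Kt.cs k n₀) ρ) {K' s₁ : ℕ} {sh : ℕ → ℕ} (hK' : 1 ≤ K')
    {c β T h : ℝ} (hβ : 0 < β) (hT : 0 < T) (hh : 0 < h)
    (flt : EvC (Kt.box ρ Ad df) c β T h fun p => ∀ l < n₀, Nw (Kt.L p.k l) p.y + 4 * p.X ≤ 1)
    (frec : ∃ C₂ : ℝ, ∀ k : ℝ, 0 < k → ∀ M : ℕ, EvN (Kt.box ρ Ad df) c β T h fun N θ p =>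
      Kt.Rec S K' s₁ sh C₂ k M N θ p) :
    ∃ (h₁ C₃ : ℝ), 0 < h₁ ∧ h₁ ≤ 1 ∧ ∀ C₁ ≥ C₃, ∃ B : ℕ, 1 ≤ B ∧ ∀ M : ℕ,
    EvN (Kt.box ρ Ad df) c β T h fun N θ p => Kt.FldN S K' s₁ sh M N θ p fun G J F D q =>
      (G.nd D (Kt.rc p N M θ J F)).NF1 G.n (up G.ζ J) G.M B (gamS (n₀ + 1) p.la p.ml) h₁ C₁ q := by
  obtain ⟨C₀, hC₀, hasm⟩ := asm_okx (n₀ + 1) Kt.K K' s₁ sh hK'
  obtain ⟨C₂, frec⟩ := frec
  obtain ⟨C₁', hC₁'⟩ : ∃ C₁', C₁' = max (max C₀ (C₂ + 2)) 1 := ⟨_, rfl⟩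
  have c1 : C₀ ≤ C₁' := by rw [hC₁']; exact (le_max_left _ _).trans (le_max_left _ _)
  have c2 : C₂ + 2 ≤ C₁' := by rw [hC₁']; exact (le_max_right _ _).trans (le_max_left _ _)
  have c3 : 1 ≤ C₁' := by rw [hC₁']; exact le_max_right _ _
  obtain ⟨Λ, hΛ⟩ := exists_nat_ge (T + 1 + 2 * C₁')
  obtain ⟨B, hB, hnf⟩ := Pool.MIC6.nf_cls (n₀ + 1) Kt.K K' s₁ sh (by omega) hK' Λ (C₁ := C₁')
    (by linarith only [c3])
  refine ⟨min h 1, 2 * C₁' + 2, lt_min hh one_pos, min_le_right _ _, fun C₁ hC₁ =>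
    ⟨B, hB, fun M => ?_⟩⟩
  obtain ⟨k₀, hk₀, hnf⟩ := hnf B le_rfl M
  have hM0 : (0 : ℝ) ≤ M := Nat.cast_nonneg M
  have hM3 : (0 : ℝ) < ((M : ℝ) + 1) ^ 3 := by positivity
  obtain ⟨k, hk⟩ : ∃ k : ℝ, k = min k₀ (1 / ((M : ℝ) + 1) ^ 3) := ⟨_, rfl⟩
  have hk0 : 0 < k := by
    rw [hk]
    exact lt_min hk₀ (by positivity)
  have hk1 : k ≤ k₀ := by rw [hk]; exact min_le_left _ _
  have hk2 : ((M : ℝ) + 1) ^ 3 * k ≤ 1 := by
    have : k ≤ 1 / ((M : ℝ) + 1) ^ 3 := by rw [hk]; exact min_le_right _ _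
    rw [le_div_iff₀ hM3] at this
    linarith only [this]
  obtain ⟨N₁, hN₁⟩ := exists_nat_ge (4 * (T + 2))
  have key := ((EvN.of_evC flt).and (frec k hk0 M)).and
    (EvN.self (Kt.box ρ Ad df) c β T h (max N₁ (B + 1)) (θ₀ := 1 / 16) (by norm_num)
      (ε := fun N _ => 1 / (64 * (N * (M + 4)) + 1)) (fun N _ _ => by positivity))
  refine key.mono ?_
  rintro N θ p ⟨⟨plt, prec⟩, hN, hθ, hθ1, hp⟩ b e hnear
  obtain ⟨ε, hε⟩ : ∃ ε : ℝ, ε = 1 / (64 * (N * (M + 4)) + 1) := ⟨_, rfl⟩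
  rw [← hε] at hp
  have hNN : N₁ ≤ N := (le_max_left _ _).trans hN
  have hNB : B + 1 ≤ N := (le_max_right _ _).trans hN
  have hN1 : 1 ≤ N := by omega
  have hNT : 4 * (T + 2) ≤ N := hN₁.trans (by exact_mod_cast hNN)
  have hε0 : 0 < ε := by rw [hε]; positivity
  have hεN : ε * (64 * (N * (M + 4))) ≤ 1 := by
    rw [hε, one_div, inv_mul_le_iff₀ (by positivity)]
    linarith
  have hL := hp.cellL (L := Kt.L p.k) hβ rfl (fun _ => rfl) (hlaw p.k) (hlow p.k) plt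
  have hn1 : 1 ≤ n₀ + 1 := by omega
  have hs := hL.side (B := B) hn1 hN1 hNT hNB hB hε0.le hεN hθ hθ1 hnear.nearL
  have hX := hL.pos
  have hζ0 := hs.ζ0
  have e1 : N * ((M + 4) * msh p.X N M) = p.X := msh_mul hN1
  have hεX : ε * p.X ≤ msh p.X N M / 2 := by
    have h1 : ε * (64 * (N * (M + 4))) * msh p.X N M ≤ 1 * msh p.X N M :=
      mul_le_mul_of_nonneg_right hεN hζ0.le
    have h2 : ε * (64 * (N * (M + 4))) * msh p.X N M =
      64 * (ε * (N * ((M + 4) * msh p.X N M))) := by ring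
    rw [h2, e1] at h1
    linarith only [h1, hζ0]
  have hnum : ∀ i ≤ M, ∀ j ≤ M, ∀ l < n₀ + 1, |b i j l - Kt.L p.k l
      (p.y.1 + p.y.2 + i * msh p.X N M) (p.y.1 + j * msh p.X N M)| ≤ msh p.X N M / 16 := by
    intro i hi j hj l hl
    have h1 := hnear.up i hi j hj l (by omega)
    have h2 := hnear.lo i hi j hj l (by omega)
    have h3 : θ * msh p.X N M ≤ 1 / 16 * msh p.X N M := mul_le_mul_of_nonneg_right hθ1 hζ0.le
    rw [abs_le]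
    constructor
    · linarith only [h2, h3]
    · linarith only [h1, hζ0]
  have hBM : (M : ℝ) ≤ B * M := by
    have : (1 : ℝ) ≤ B := by exact_mod_cast hB
    nlinarith only [this, hM0]
  have hrec := Fld.iff_x.1 (prec b e hnear)
  have hpos' : Bas S (fun _ F A => 0 < Pe F.p A) :=
    ⟨1, one_pos, 0, fun J _ F A hA => hpos 1 J F A hA⟩
  have hok := hasm (S := S) (X := Kt.XC p N M θ) (M := M) (c := Kt.cs p.k)
    (α := p.y.1 + p.y.2) (ϖ := p.y.1) (ζ := msh p.X N M) (e := e) (b := b)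
    (ρ := fun J F => Kt.rc p N M θ J F) (lam := lamS (n₀ + 1) p.ml)
    (gam := gamS (n₀ + 1) p.la p.ml) (κ := 2 * k + ((M : ℝ) + 1) ^ 3 * k) (k := k) (C₂ := C₂)
    (C₁ := C₁') hs.win hζ0 hs.thin hs.top (hinj p.k) hs.pos hnear.e0
    (fun i hi j hj l hl => by
      have h1 := hs.siz i hi j hj l (by omega)
      have h2 : (M : ℝ) * msh p.X N M ≤ B * M * msh p.X N M :=
        mul_le_mul_of_nonneg_right hBM hζ0.le
      linarith only [h1, h2]) hk0 c1 le_rfl (by linarith only [hk2, c2])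
    (hL.num hn1 hN1 hNT hε0.le hεN c3 hnum fun i hi j hj l hl => (hs.pos i hi j hj l hl).le)
    hpos' hrec
  have hlow0 := hL.low n₀ (by omega) (p.y.1 + p.y.2) p.y.1 hs.win
    (by linarith only [hL.dep, hX]) (by linarith only [hL.top, hX])
  have hup0 := hL.lt n₀ (by omega)
  have hNf : NfB ρ (min h 1) (ε * p.X) (Kt.L p.k n₀ (p.y.1 + p.y.2) p.y.1 - p.X)
      (Kt.L p.k n₀ (p.y.1 + p.y.2) p.y.1 + 2 * p.X) := by
    refine nfB_mono hp.nf (min_le_left _ _) le_rfl ?_ ?_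
    · show Kt.L p.k n₀ (p.y.1 + p.y.2) p.y.1 - 4 * (T + 1) * p.X ≤ _
      nlinarith only [hX, hT]
    · show _ ≤ Kt.L p.k n₀ (p.y.1 + p.y.2) p.y.1 + 4 * (T + 1) * p.X
      nlinarith only [hX, hT]
  have hfin := hnf (S := S) (X := Kt.XC p N M θ) (c := Kt.cs p.k)
    (α := p.y.1 + p.y.2) (ϖ := p.y.1) (ζ := msh p.X N M) (e := e) (b := b)
    (ρ := fun J F => Kt.rc p N M θ J F) (lam := lamS (n₀ + 1) p.ml)
    (gam := gamS (n₀ + 1) p.la p.ml) (k := k) (C₂ := C₂) (η := ε * p.X) (r := ρ)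
    (A₀ := Kt.L p.k n₀ (p.y.1 + p.y.2) p.y.1 - p.X)
    (B₁ := Kt.L p.k n₀ (p.y.1 + p.y.2) p.y.1 + 2 * p.X)
    hζ0 hk0.le hk1 (hinj p.k) (hcov p.k)
    (fun l _ _ => by
      have := hL.lamS_le hn1 l
      linarith only [this, hΛ]) hnear.e0 hs.pos hs.siz hs.mono
    (by linarith only [hlow0, hL.dep, hL.win, hX]) (by linarith only [hup0, hX])
    hs.lev (le_min hh.le zero_le_one) (min_le_right _ _) (by positivity) hεX hNf hpos hZ (hR p.k)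
    hrec hok
  exact Fld.iff_x.2 (hfin.mono 0 fun J _ F D q hq => hq.mono hC₁)

end Pool.STAT
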