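import Pool.Agent.H6.MIC.NfD

/-!
# Nonfull rows of a cell from the exactness of the base given the labels

`nf_clsC`: the rows `NF0` of the cells of the real grid for every event of the class with small
defect, from the exactness of the base given the relations of the cell and the time (`ExC`); no
records.
-/

set_option autoImplicit false

namespace Pool.MIC6

open Finset MvPolynomial
open Pool.Agent.H49.Ent Pool.Agent.H32.Dense Pool.STK Pool.KS3 Pool.STAT Pool.STAT.CLO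
open Pool.KA Pool.KSAT Pool.PB Pool.GEN Pool.K2S Pool.S6C Pool.GEN.N83

/-- **The base is exact** to `J` digits given the relations of the cell and the exact time, behind
the precisions `g i j l - sh (l + 1)`. -/
def ExC {m J : ℕ} {F : Fam m J} (D : GDat F) (c : ℕ → Fin m) (n : ℕ) (sh : ℕ → ℕ)
    {R : ℕ → ℕ → Type} (ρ : (i j : ℕ) → LnT F → R i j) (w₀ z M : ℕ) (g : ℕ → ℕ → ℕ → ℕ) (k : ℝ)
    (q : F.Ω → ℝ) : Prop :=
  ∀ i ≤ M, ∀ j ≤ M,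
    (∑ l ∈ range (n - 1), ((J : ℝ) - (g i j l - sh (l + 1) : ℕ))) * Real.log 2 - k ≤
      CH q (fun ω (l : Fin (n - 1)) => ⌊(2 : ℝ) ^ J * F.x ω (c l)⌋)
        (fun ω => ((D.cd n ρ).lab2 w₀ z i j ω, F.T ω))

/-- **The inputs of the row for a family.** -/
theorem nfh_famC (n K K' s₁ : ℕ) (sh : ℕ → ℕ) (hK' : 1 ≤ K') : ∃ (L : ℝ) (s₂ : ℕ), 1 ≤ L ∧
    ∀ {m J : ℕ} {F : Fam m J} {D : GDat F} {c : ℕ → Fin m} {a₀ w₀ z M Y : ℕ} {e : ℕ → ℕ → ℕ}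
    {g : ℕ → ℕ → ℕ → ℕ} {B : F.Ω → Prop} {R : ℕ → ℕ → Type} {ρ : (i j : ℕ) → LnT F → R i j}
    {k : ℝ}, D.Ok c n K K' s₁ sh a₀ w₀ z M e g B → Inj c n →
    w₀ + M * z ≤ J → a₀ + M * z ≤ J →
    (∀ i ≤ M, ∀ j ≤ M, ∀ l < n, sh (l + 1) ≤ g i j l) → SizY n J Y M s₂ e g →
    ∀ {q : F.Ω → ℝ}, IsLaw q → (∀ ω, 0 < q ω → B ω) →
    ExC D c n sh ρ w₀ z M g (k * z) q →
    NfH (D.nd c n sh w₀ z M g ρ) n J z M Y L k q := by
  obtain ⟨L, s₂, hL, hnear⟩ := near_gx n n K K' s₁ sh le_rfl hK'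
  refine ⟨L, s₂, hL, ?_⟩
  intro m J F D c a₀ w₀ z M Y e g B R ρ k h hc hwM haM hsh hsiz q hq hB hx
  have hgle : ∀ i j l, g i j l ≤ (range (l + 1)).sup (g i j) := fun i j l =>
    Finset.le_sup (f := g i j) (mem_range.2 (by omega))
  have hgnd : ∀ i j l, 1 ≤ l → (D.nd c n sh w₀ z M g ρ).g i j l = g i j (l - 1) - sh l :=
    fun i j l l1 => CDat2.nd2_g _ _ _ _ _ _ _ l1
  refine ⟨fun i hi j hj ω ω' hω hω' es eT l l1 l2 hk => ?_, fun i hi j hj => ?_,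
    fun i hi j hj l l1 l2 => ?_⟩
  · have hai : a₀ + i * z ≤ J := by
      have : i * z ≤ M * z := Nat.mul_le_mul_right _ hi
      omega
    have hch := h.chn i hi j hj
    have hO := h.out i hi j hj
    have et : F.t ω = F.t ω' := by
      unfold Fam.t
      rw [show F.T ω = F.T ω' from eT]
    have ez : D.zS i j (ptr F J ω) = D.zS i j (ptr F J ω') := es
    have eΨ : ∀ ω, (D.nd c n sh w₀ z M g ρ).Ψ i j ω l = (D.cd n ρ).Ps2 i j ω l := fun ω =>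
      CDat2.nd2_Ψ (D.cd n ρ) (cx F fun i => c (i - 1)) (pc c) w₀ z M
        (fun i j l => g i j (l - 1) - sh l) hi hj l1 l2 ω
    rw [hgnd i j l l1, eΨ, eΨ]
    have h1 := hnear m J F c (a₀ + i * z) (g i j)
      (fun l => e i j + ((range (l + 1)).sup (g i j) - g i j l)) Y (D.G i j (ptr F J ω))
      (D.PS i j (D.zS i j (ptr F J ω))) ω hai hc (fun k _ => hch.degG _ k)
      (fun k => hch.depG _ k) (fun k hk b hb l hl => by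
        refine (hch.lip ω (hB ω hω) k (by omega) b hb l hl).trans ?_
        refine pow_le_pow_right₀ (by norm_num) (Nat.add_le_add_left ?_ _)
        unfold nlp
        have h5 : (Finset.Icc l k).sup (g i j) ≤ (range (k + 1)).sup (g i j) := by
          refine Finset.sup_mono fun x hx => ?_
          rw [Finset.mem_Icc] at hx
          exact mem_range.2 (by omega)
        omega)
      (fun k _ _ => hO.Stri _ k) (fun k _ _ => hO.Sdeg _ k)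
      (by rw [hO.Szero, hO.Sfst, tx_eq]) (hO.nrS ω (hB ω hω))
      (fun k h1 h2 => hO.pos ω (hB ω hω) k h1 h2) (hsh i hi j hj) (fun l hl => by
        have h5 := hgle i j l
        have h6 := hsiz i hi j hj l hl
        omega)
      (cx F (fun i => c (i - 1)) ω') (by
        show (if 0 = 0 then F.t ω' else _) = _
        rw [if_pos rfl, et]) l l1 l2 (fun k k1 k2 => by
        have h2 := floor_near (a := J) (hk ⟨k - 1, by omega⟩ (by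
          show k - 1 + 1 < l
          omega))
        simp only [Nat.sub_add_cancel k1] at h2
        rw [abs_sub_comm]
        exact h2)
    rw [abs_sub_comm]
    show |eval (cx F (fun i => c (i - 1)) ω') (D.PS i j (D.zS i j (ptr F J ω')) l) -
      eval (cx F (fun i => c (i - 1)) ω) (D.PS i j (D.zS i j (ptr F J ω)) l)| ≤ _
    rw [← ez]
    exact h1
  · have h2 := hx i hi j hj
    have h3 : ∑ l ∈ range (n - 1), ((J : ℝ) - (D.nd c n sh w₀ z M g ρ).g i j (l + 1)) =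
        ∑ l ∈ range (n - 1), ((J : ℝ) - (g i j l - sh (l + 1) : ℕ)) := by
      refine Finset.sum_congr rfl fun l _ => ?_
      rw [hgnd i j (l + 1) (by omega), Nat.add_sub_cancel]
    have h6 : (∑ l ∈ range (n - 1), ((J : ℝ) - (D.nd c n sh w₀ z M g ρ).g i j (l + 1))) *
        Real.log 2 - k * z ≤
        CH q (fun ω (l : Fin (n - 1)) => ⌊(2 : ℝ) ^ J * F.x ω (c l)⌋)
          (fun ω => ((D.cd n ρ).lab2 w₀ z i j ω, F.T ω)) := by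
      rw [h3]
      exact h2
    exact h6
  · rw [hgnd i j l l1]
    have h5 := hgle i j (l - 1)
    have h6 := hsiz i hi j hj (l - 1) (by omega)
    rw [Nat.sub_add_cancel l1] at h5 h6
    omega

/-- **The rows for one family.** -/
theorem nf_famC (n K K' s₁ : ℕ) (sh : ℕ → ℕ) (hn : 1 ≤ n) (hK' : 1 ≤ K') (Λ : ℕ) {C₁ : ℝ}
    (hC₁ : 0 ≤ C₁) : ∃ (B₀ s₂ : ℕ), 1 ≤ B₀ ∧ ∀ B ≥ B₀, ∀ M : ℕ, ∃ (κ₀ : ℝ) (z₀ : ℕ), 0 < κ₀ ∧
    ∀ {m J : ℕ} {F : Fam m J} {D : GDat F} {c : ℕ → Fin m} {a₀ w₀ z : ℕ} {e : ℕ → ℕ → ℕ}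
    {g : ℕ → ℕ → ℕ → ℕ} {A : F.Ω → Prop} {R : ℕ → ℕ → Type} {ρ : (i j : ℕ) → LnT F → R i j}
    {lam gam : ℕ → ℝ} {k κ' a : ℝ},
    D.Ok c n K K' s₁ sh a₀ w₀ z M e g A → Inj c n →
    (∀ i : Fin m, i ≠ c (n - 1) → ∃ l < n - 1, c l = i) → z₀ ≤ z →
    0 ≤ k → k ≤ κ₀ → (∀ l, 1 ≤ l → l ≤ n → lam l + 2 * C₁ ≤ Λ) →
    (∀ i ≤ M, ∀ j ≤ M, ∀ l < n, sh (l + 1) ≤ g i j l) →
    (∀ i i' : ℕ, i ≤ i' → i' ≤ M → ∀ j ≤ M, ∀ l < n, g i j l ≤ g i' j l) →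
    SizY n J (B * (M * z)) M s₂ e g →
    ∀ {q : F.Ω → ℝ}, IsLaw q → (∀ ω, 0 < q ω → A ω) →
    (∀ ω ω', 0 < q ω → 0 < q ω' → F.Z ω = F.Z ω') →
    ExC D c n sh ρ w₀ z M g (k * z) q →
    (D.nd c n sh w₀ z M g ρ).Ok2 n K' J a₀ w₀ z M lam gam κ' C₁ q →
    (∀ P Q : ℕ, P ≤ Q → (∃ i ≤ M, ∃ j ≤ M, g i j (n - 1) - sh n ≤ P ∧
      Q ≤ g i j (n - 1) - sh n + M * z) →
      CH q (fun ω => F.X Q ω (c (n - 1)))
        (fun ω => (F.X P ω (c (n - 1)), oth (c (n - 1)) J F (ptr F J ω))) ≤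
        (1 - a) * (((Q : ℝ) - P) * Real.log 2) + z) →
    NF0 (D.nd c n sh w₀ z M g ρ) n z M B a (2 * C₁ + 2) q := by
  obtain ⟨L, s₂, hL, hnf⟩ := nfh_famC n K K' s₁ sh hK'
  obtain ⟨B₀, hB₀, hrow⟩ := nf_row n K' hn Λ hC₁ (by linarith : 0 ≤ L)
  refine ⟨B₀, s₂, hB₀, fun B hB M => ?_⟩
  obtain ⟨κ₀, z₀, hκ₀, hrow⟩ := hrow B hB M
  refine ⟨κ₀, z₀, hκ₀, ?_⟩
  intro m J F D c a₀ w₀ z e g A R ρ lam gam k κ' a hD hc hcov hz hk hk1 hlam hsh hmon hsiz q hq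
    hA hZ hx hok hrate i hi j hj r U hrU
  have hT := hok.thin
  have hP := hok.top
  have hMz : (M + 1) * z = M * z + z := by ring
  have hN := hnf hD hc (by omega) (by omega) hsh hsiz hq hA hx
  have hgn : ∀ i j l, 1 ≤ l → (D.nd c n sh w₀ z M g ρ).g i j l = g i j (l - 1) - sh l :=
    fun i j l l1 => CDat2.nd2_g _ _ _ _ _ _ _ l1
  have h1 := hrow hz hk hk1 le_rfl hlam hok hN (fun i i' hii hi' j hj l l1 l2 => by
    rw [hgn i j l l1, hgn i' j l l1]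
    exact Nat.sub_le_sub_right (hmon i i' hii hi' j hj (l - 1) (by omega)) _) i j r U
    (by omega) hj
  refine h1.trans ?_
  rw [hgn i j n hn]
  have h2 := rate_vj (J := J) (c := c) hq.nonneg hn hcov hZ (g i j (n - 1) - sh n + r * z)
    (g i j (n - 1) - sh n + (r + U) * z)
  have h3 : r * z ≤ (r + U) * z := Nat.mul_le_mul_right z (by omega)
  have h4 : (r + U) * z ≤ M * z := Nat.mul_le_mul_right z (by omega)
  have h5 := hrate (g i j (n - 1) - sh n + r * z) (g i j (n - 1) - sh n + (r + U) * z)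
    (by omega) ⟨i, hi, j, hj, by omega, by omega⟩
  have h6 : (((g i j (n - 1) - sh n + (r + U) * z : ℕ) : ℝ) -
      ((g i j (n - 1) - sh n + r * z : ℕ) : ℝ)) = U * z := by
    push_cast
    ring
  rw [h6] at h5
  have h7 := h2.trans h5
  have h8 : CH q (fun ω => ⌊(2 : ℝ) ^ (g i j (n - 1) - sh n + (r + U) * z) *
      (D.nd c n sh w₀ z M g ρ).X ω n⌋)
      (fun ω => (⌊(2 : ℝ) ^ (g i j (n - 1) - sh n + r * z) * (D.nd c n sh w₀ z M g ρ).X ω n⌋,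
        (vj (D.nd c n sh w₀ z M g ρ) n J ω, (D.nd c n sh w₀ z M g ρ).T ω))) ≤
      (1 - a) * (U * z * Real.log 2) + z := h7
  have h9 : (1 - a) * (U * z * Real.log 2) + z + (2 * C₁ + 1) * z =
      (1 - a) * (U * z) * Real.log 2 + (2 * C₁ + 2) * z := by ring
  rw [← h9]
  exact add_le_add_left h8 _

/-! ### A class -/

/-- **The rows of the cells of the real grid, for a class**: all widths. -/
theorem nf_clsC (n K K' s₁ : ℕ) (sh : ℕ → ℕ) (hn : 1 ≤ n) (hK' : 1 ≤ K') (Λ : ℕ) {C₁ : ℝ}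
    (hC₁ : 0 ≤ C₁) : ∃ B₀ : ℕ, 1 ≤ B₀ ∧ ∀ B ≥ B₀, ∀ M : ℕ, ∃ k₀ : ℝ, 0 < k₀ ∧
    ∀ {m : ℕ} {S : PCl m} {X : LabX m} {c : ℕ → Fin m} {α ϖ ζ : ℝ} {e : ℕ → ℕ → ℝ} {b : ℕ → ℕ → ℕ → ℝ}
    {R : (J : ℕ) → Fam m J → ℕ → ℕ → Type}
    {ρ : (J : ℕ) → (F : Fam m J) → (i j : ℕ) → LnT F → R J F i j} {lam gam : ℕ → ℝ}
    {k κ' h A₀ B₁ η : ℝ} {r : ℝ → ℝ},
    0 < ζ → 0 ≤ k → k ≤ k₀ → Inj c n →
    (∀ i : Fin m, i ≠ c (n - 1) → ∃ l < n - 1, c l = i) →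
    (∀ l, 1 ≤ l → l ≤ n → lam l + 2 * C₁ ≤ Λ) →
    (∀ i ≤ M, ∀ j ≤ M, 0 ≤ e i j) → (∀ i ≤ M, ∀ j ≤ M, ∀ l < n, 0 < b i j l) →
    (∀ i ≤ M, ∀ j ≤ M, ∀ l < n, b i j l + e i j + (B * M + 1) * ζ < 1) →
    (∀ i i' : ℕ, i ≤ i' → i' ≤ M → ∀ j ≤ M, ∀ l < n, b i j l ≤ b i' j l) →
    0 ≤ A₀ → B₁ ≤ 1 →
    (∀ i ≤ M, ∀ j ≤ M, A₀ + ζ ≤ b i j (n - 1) ∧ b i j (n - 1) + (M + 1) * ζ ≤ B₁) →
    0 ≤ h → h ≤ 1 → 0 ≤ η → η ≤ ζ / 2 → Pool.STR.NfB r h η A₀ B₁ →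
    (∀ (τ : ℝ) (J : ℕ) (F : Fam m J) (A : F.Ω → Prop), S.St τ J F A → 0 < Pe F.p A) →
    Bas S (fun _ F _ => Zc F) → Pool.ALL.RateOf S (c (n - 1)) r →
    FldX S X c n K K' s₁ sh α ϖ ζ M e b (fun J F D q =>
      ExC D c n sh (ρ J F) (up ϖ J) (up ζ J) M (fun i j l => ⌊b i j l * J⌋₊)
        (k * up ζ J) q) →
    FldX S X c n K K' s₁ sh α ϖ ζ M e b (fun J F D q =>
      (D.nd c n sh (up ϖ J) (up ζ J) M (fun i j l => ⌊b i j l * J⌋₊) (ρ J F)).Ok2 n K' J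
        (up α J) (up ϖ J) (up ζ J) M lam gam κ' C₁ q) →
    FldX S X c n K K' s₁ sh α ϖ ζ M e b (fun J F D q =>
      NF0 (D.nd c n sh (up ϖ J) (up ζ J) M (fun i j l => ⌊b i j l * J⌋₊) (ρ J F)) n
        (up ζ J) M B h (2 * C₁ + 2) q) := by
  obtain ⟨B₀, s₂, hB₀, hfam⟩ := nf_famC n K K' s₁ sh hn hK' Λ hC₁
  refine ⟨B₀, hB₀, fun B hB M => ?_⟩
  obtain ⟨κ₀, z₀, hκ₀, hfam⟩ := hfam B hB M
  refine ⟨κ₀, hκ₀, ?_⟩
  intro m S X c α ϖ ζ e b R ρ lam gam k κ' h A₀ B₁ η r hζ hk hk1 hc hcov hlam he hb hsz hmon hA₀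
    hB₁ hlev hh hh1 hη hη1 hnf hpos hZ hR hr hok
  have hAB : A₀ ≤ B₁ := by
    obtain ⟨l1, l2⟩ := hlev 0 (Nat.zero_le M) 0 (Nat.zero_le M)
    have : (0 : ℝ) ≤ (M + 1) * ζ := by positivity
    linarith
  have hrb := rate_box hpos (fun J F ω => oth (c (n - 1)) J F (ptr F J ω)) (c (n - 1))
    (ρ := r) hR.num hA₀ hAB hB₁ hh hh1 hη hnf (e := ζ / 2) (by positivity)
  have hP : Bas S (fun _ F A => 0 < Pe F.p A) := ⟨1, one_pos, 0, fun J _ F A hA => hpos 1 J F A hA⟩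
  obtain ⟨J₁, hlv⟩ := lev_ev (B₁ := B₁) hA₀ hζ M (sh n)
  obtain ⟨J₂, hflo⟩ := flo_ev hb sh
  obtain ⟨J₃, hsi⟩ := sizY_ev (hB₀.trans hB) hζ he hb hsz s₂
  obtain ⟨J₄, hJ₄⟩ := exists_nat_ge ((z₀ : ℝ) / ζ)
  refine Bas.mono (max (max J₁ J₂) (max J₃ J₄)) (Bas.and (Bas.and hP hZ)
    (Bas.and (Bas.and hr hok) hrb)) fun J hJ F A hA D hD hX => ?_
  obtain ⟨⟨f1, f2⟩, ⟨f3, f6⟩, f7⟩ := hA
  have f5 := f3 D hD hX
  have j1 : J₁ ≤ J := ((le_max_left _ _).trans (le_max_left _ _)).trans hJ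
  have j2 : J₂ ≤ J := ((le_max_right _ _).trans (le_max_left _ _)).trans hJ
  have j3 : J₃ ≤ J := ((le_max_left _ _).trans (le_max_right _ _)).trans hJ
  have j4 : J₄ ≤ J := ((le_max_right _ _).trans (le_max_right _ _)).trans hJ
  have hz : z₀ ≤ up ζ J := by
    have h8 : (J₄ : ℝ) ≤ J := by exact_mod_cast j4
    have h9 : (z₀ : ℝ) / ζ ≤ J := hJ₄.trans h8
    rw [div_le_iff₀ hζ] at h9
    have h10 : ζ * J ≤ up ζ J := up_ge ζ J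
    have h11 : (z₀ : ℝ) ≤ up ζ J := by linarith only [h9, h10]
    exact_mod_cast h11
  have hJ0 : (0 : ℝ) ≤ J := Nat.cast_nonneg J
  refine hfam hD hc hcov hz hk hk1 hlam
    (fun i hi j hj l hl => hflo J j2 i hi j hj l hl)
    (fun i i' hii hi' j hj l hl => Nat.floor_le_floor
      (mul_le_mul_of_nonneg_right (hmon i i' hii hi' j hj l hl) hJ0))
    (hsi J j3) (isLaw_cond F.isLaw f1) (fun ω hω => Pool.PB.End.of_cond_pos hω)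
    (fun ω ω' hω hω' => f2 ω ω' ((cond_pos_iff F.isLaw.nonneg _ _ _).1 hω).1
      ((cond_pos_iff F.isLaw.nonneg _ _ _).1 hω').1) f5 (f6 D hD hX) ?_
  rintro P Q hPQ ⟨i, hi, j, hj, k1, k2⟩
  obtain ⟨l1, l2⟩ := hlev i hi j hj
  obtain ⟨m1, m2⟩ := hlv J j1 _ l1 l2
  have k1' : ((⌊b i j (n - 1) * J⌋₊ - sh n : ℕ) : ℝ) ≤ P := by exact_mod_cast k1
  have k2' : (Q : ℝ) ≤ ((⌊b i j (n - 1) * J⌋₊ - sh n + M * up ζ J : ℕ) : ℝ) := by
    exact_mod_cast k2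
  refine (f7 P Q (m1.trans k1') hPQ (k2'.trans m2)).trans ?_
  have h10 : ζ * J ≤ up ζ J := up_ge ζ J
  have h11 : (η + ζ / 2) * J ≤ ζ * J := mul_le_mul_of_nonneg_right (by linarith) hJ0
  linarith


end Pool.MIC6
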