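import Pool.Agent.H63.STAT.Clo
import Pool.Agent.H63.STAT.Flw4
import Pool.Agent.H68.RM.Cel

/-!
# The digits of the heights over coarse labels, given fine labels

`entA`: `Φ` are coarse labels with precisions `g`, `Ψ` are fine labels with precisions `g'`, both are
functions of the context `c`. If the base is full over the fine labels, the entropy of the natural
digits over the coarse labels, given the context, is at most the number of the digits behind `g'`.
-/

set_option autoImplicit false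

namespace Pool.MIC6

open Finset MvPolynomial
open Pool.Agent.H49.Ent Pool.Agent.H32.Dense Pool.STK Pool.KS3 Pool.STAT Pool.STAT.CLO
open Pool.BFL (Pl CB Pb P2 MC alt)

/-- Triangular vectors of integers, the bound depends on the sample. -/
theorem ch_vec {Ω U : Type} [Fintype Ω] {q : Ω → ℝ} (hq : IsLaw q) {n : ℕ} (Y : Ω → Fin n → ℤ)
    (W : Ω → U) (b : ℕ → Ω → ℝ)
    (hb : ∀ i : Fin n, ∀ ω ω', 0 < q ω → 0 < q ω' → W ω = W ω' → (∀ j < i, Y ω j = Y ω' j) →
      |((Y ω i - Y ω' i : ℤ) : ℝ)| ≤ b i ω) :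
    CH q Y W ≤ ∑ i ∈ range n, Ex q (fun ω => Real.log (2 * b i ω + 1)) := by
  have H : ∀ m ≤ n, CH q (fun ω (j : Fin n) => if (j : ℕ) < m then Y ω j else 0) W ≤
      ∑ i ∈ range m, Ex q (fun ω => Real.log (2 * b i ω + 1)) := by
    intro m
    induction m with
    | zero =>
      intro _
      rw [Finset.sum_range_zero]
      refine le_of_eq (CH_eq_zero hq.nonneg fun ω ω' _ _ _ => ?_)
      rfl
    | succ m ih =>
      intro hm
      have hm' : m < n := hm
      have h1 := ih hm'.le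
      have h2 : CH q (fun ω => Y ω ⟨m, hm'⟩)
          (fun ω => ((fun j : Fin n => if (j : ℕ) < m then Y ω j else 0), W ω)) ≤
          Ex q (fun ω => Real.log (2 * b m ω + 1)) :=
        CH_le_int hq.nonneg hq.sum_one (fun ω => Y ω ⟨m, hm'⟩)
          (fun ω => ((fun j : Fin n => if (j : ℕ) < m then Y ω j else 0), W ω))
          (b m) (fun ω ω' h h' e => by
            simp only [Prod.mk.injEq] at e
            refine hb ⟨m, hm'⟩ ω ω' h h' e.2 fun j hj => ?_
            have h4 := congrFun e.1 j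
            have h5 : (j : ℕ) < m := hj
            simp only [h5, if_true] at h4
            exact h4)
      have h3 := CH_chain hq.nonneg (fun ω => Y ω ⟨m, hm'⟩)
        (fun ω (j : Fin n) => if (j : ℕ) < m then Y ω j else 0) W
      have h4 : CH q (fun ω (j : Fin n) => if (j : ℕ) < m + 1 then Y ω j else 0) W ≤
          CH q (fun ω => (Y ω ⟨m, hm'⟩,
            fun j : Fin n => if (j : ℕ) < m then Y ω j else 0)) W := by
        refine CH_mono_left hq.nonneg fun ω ω' _ _ e => ?_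
        simp only [Prod.mk.injEq] at e
        funext j
        by_cases hj : (j : ℕ) < m
        · have h5 := congrFun e.1.2 j
          simp only [hj, if_true] at h5
          simp only [Nat.lt_succ_of_lt hj, if_true]
          exact h5
        · by_cases hj' : (j : ℕ) = m
          · have h6 : j = ⟨m, hm'⟩ := Fin.ext hj'
            simp only [h6, Nat.lt_succ_self, if_true]
            exact e.1.1
          · have h7 : ¬ (j : ℕ) < m + 1 := by omega
            simp only [h7, if_false]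
      rw [Finset.sum_range_succ]
      linarith
  have h1 := H n le_rfl
  have h2 : (fun ω (j : Fin n) => if (j : ℕ) < n then Y ω j else 0) = Y := by
    funext ω j
    simp only [j.2, if_true]
  rwa [h2] at h1

/-- Polynomials are Lipschitz on the cube. -/
theorem lip_pn {F : PN} {i K : ℕ} {y y' : ℕ → ℝ} {r : ℝ} (hv : F.vars ⊆ range i)
    (hK : F.totalDegree ≤ K) (hr : 0 ≤ r) (hy : ∀ j < i, |y j| ≤ 1) (hy' : ∀ j < i, |y' j| ≤ 1)
    (h : ∀ j < i, |y j - y' j| ≤ r) : |eval y F - eval y' F| ≤ K * n1 F * r := by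
  rw [eval_eq, eval_eq, ← Finset.sum_sub_distrib, n1_eq, mul_assoc, Finset.sum_mul,
    Finset.mul_sum]
  refine (Finset.abs_sum_le_sum_abs _ _).trans (Finset.sum_le_sum fun k hk => ?_)
  rw [← mul_sub, abs_mul]
  obtain ⟨u, hu⟩ : ∃ u : ℕ → ℝ, u = fun j => if j < i then y j else 0 := ⟨_, rfl⟩
  obtain ⟨v, hv'⟩ : ∃ v : ℕ → ℝ, v = fun j => if j < i then y' j else 0 := ⟨_, rfl⟩
  have h1 : ∀ j ∈ k.support, j < i := fun j hj =>
    mem_range.1 (hv ((mem_vars_iff_mem_support _).2 ⟨k, hk, hj⟩))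
  have h2 : ∏ j ∈ k.support, y j ^ k j = ∏ j ∈ k.support, u j ^ k j :=
    Finset.prod_congr rfl fun j hj => by rw [hu]; simp only [h1 j hj, if_true]
  have h3 : ∏ j ∈ k.support, y' j ^ k j = ∏ j ∈ k.support, v j ^ k j :=
    Finset.prod_congr rfl fun j hj => by rw [hv']; simp only [h1 j hj, if_true]
  rw [h2, h3]
  have h4 := (F4.prod_lip k.support k u v (R := 1) (δ := r) le_rfl
    (fun j => by
      rw [hu]
      simp only
      split_ifs with hj
      · exact hy j hj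
      · rw [abs_zero]
        exact zero_le_one)
    (fun j => by
      rw [hv']
      simp only
      split_ifs with hj
      · exact hy' j hj
      · rw [abs_zero]
        exact zero_le_one) hr
    (fun j => by
      rw [hu, hv']
      simp only
      split_ifs with hj
      · exact h j hj
      · rw [sub_zero, abs_zero]
        exact hr)).2
  rw [one_pow, mul_one] at h4
  have h5 : ((∑ j ∈ k.support, k j : ℕ) : ℝ) ≤ K := by
    exact_mod_cast (le_totalDegree hk).trans hK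
  have h6 : ((∑ j ∈ k.support, k j : ℕ) : ℝ) * r ≤ K * r := mul_le_mul_of_nonneg_right h5 hr
  calc |F.coeff k| * |∏ j ∈ k.support, u j ^ k j - ∏ j ∈ k.support, v j ^ k j| ≤
      |F.coeff k| * (K * r) := mul_le_mul_of_nonneg_left (h4.trans h6) (abs_nonneg _)
    _ = K * (|F.coeff k| * r) := by ring

/-! ### The heights over the coarse labels in natural coordinates of the fine labels -/

/-- The labels at the time `t`. -/
noncomputable def atc (t : ℝ) (Ψ : ℕ → PN) : ℕ → PN := Function.update Ψ 0 (C t)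

theorem tri_atc {t : ℝ} {Ψ : ℕ → PN} (h : TriN Ψ) : TriN (atc t Ψ) := by
  intro i
  unfold atc
  rcases Nat.eq_zero_or_pos i with rfl | hi
  · rw [Function.update_self]
    exact AdxRow.vars_C_le _
  · rw [Function.update_of_ne hi.ne']
    exact h i

theorem deg_atc {t : ℝ} {Ψ : ℕ → PN} {K : ℕ} (h : ∀ j, (Ψ j).totalDegree ≤ K) (j : ℕ) :
    (atc t Ψ j).totalDegree ≤ K := by
  unfold atc
  rcases Nat.eq_zero_or_pos j with rfl | hi
  · rw [Function.update_self, totalDegree_C]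
    exact Nat.zero_le _
  · rw [Function.update_of_ne hi.ne']
    exact h j

/-- A polynomial in the natural coordinates of the labels `Ψ` at the time `t`, the coordinate `0`
is zero. -/
noncomputable def nat0 (g : ℕ → ℕ) (t : ℝ) (Ψ : ℕ → PN) (F : PN) : PN :=
  bind₁ (fun j => if j = 0 then 0 else X j) (bind₁ (nuc g (atc t Ψ)) F)

theorem eval_nat0 {g : ℕ → ℕ} {t : ℝ} {Ψ : ℕ → PN} {F : PN} (y : ℕ → ℝ) :
    eval y (nat0 g t Ψ F) =
      eval (fun j => if j = 0 then 0 else y j) (bind₁ (nuc g (atc t Ψ)) F) := by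
  unfold nat0
  rw [Pool.SYS35.eval_bind]
  congr 2
  funext j
  split_ifs
  · rw [map_zero]
  · rw [eval_X]

theorem nat0_vars {g : ℕ → ℕ} {t : ℝ} {Ψ : ℕ → PN} (hΨ : TriN Ψ) {F : PN} {i : ℕ}
    (hv : F.vars ⊆ range i) : (nat0 g t Ψ F).vars ⊆ range i := by
  unfold nat0
  have h1 : (bind₁ (nuc g (atc t Ψ)) F).vars ⊆ range i :=
    AdxRow.vars_bnd hv fun k hk => (AdxRow.nuc_vars (tri_atc hΨ) g k).trans
      (Finset.range_mono (by omega))
  refine AdxRow.vars_bnd h1 fun k hk => ?_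
  split_ifs
  · have h2 : ((0 : PN)).vars = ∅ := by
      rw [← C_0, vars_C]
    rw [h2]
    exact Finset.empty_subset _
  · exact AdxRow.vars_X_le hk

theorem nat0_deg {g : ℕ → ℕ} {t : ℝ} {Ψ : ℕ → PN} (hΨ : TriN Ψ) {F : PN} {i n K : ℕ}
    (hK : ∀ j, (Ψ j).totalDegree ≤ K) (hi : i ≤ n) (hv : F.vars ⊆ range i)
    (hF : F.totalDegree ≤ K) : (nat0 g t Ψ F).totalDegree ≤ K * (K + 1) ^ (n + 1) := by
  have h1 := (nat_deg (tri_atc (t := t) hΨ) (deg_atc hK) g hi hv hF).2
  unfold nat0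
  refine (Dgb.deg_bind (B := 1) fun k _ => ?_).trans (by rw [mul_one]; exact h1)
  split_ifs
  · rw [totalDegree_zero]
    exact Nat.zero_le _
  · exact (totalDegree_X _).le

/-- The polynomial at a point at the time `t`. -/
theorem nat0_eval {g : ℕ → ℕ} {t : ℝ} {Ψ : ℕ → PN} (hΨ : TriN Ψ) (F : PN) {b : ℕ → ℝ}
    (hb : b 0 = t) : eval (nc g (atc t Ψ) b) (nat0 g t Ψ F) = eval b F := by
  rw [eval_nat0, eval_nat (tri_atc hΨ) g b F]
  congr 2
  funext j
  split_ifs with h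
  · rw [h]
    unfold nc atc
    rw [Function.update_self, eval_C, hb, sub_self, mul_zero]
  · rfl

/-- The natural coordinates of a point at the time `t`. -/
theorem nc_atc {g : ℕ → ℕ} {t : ℝ} {Ψ : ℕ → PN} {b : ℕ → ℝ} {j : ℕ} (hj : 1 ≤ j) :
    nc g (atc t Ψ) b j = 2 ^ g j * (b j - eval b (Ψ j)) := by
  unfold nc atc
  rw [Function.update_of_ne (by omega)]

theorem nc_zero {g : ℕ → ℕ} {t : ℝ} {Ψ : ℕ → PN} {b : ℕ → ℝ} (hb : b 0 = t) :
    nc g (atc t Ψ) b 0 = 0 := by
  unfold nc atc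
  rw [Function.update_self, eval_C, hb, sub_self, mul_zero]

/-- **The triangular estimate.** -/
theorem tri_est (n K : ℕ) : ∃ C₀ : ℝ, 1 ≤ C₀ ∧ ∀ (Φ Ψ : ℕ → PN) (g g' : ℕ → ℕ) (t A : ℝ)
    (S d : ℕ), TriN Φ → TriN Ψ → (∀ j, (Φ j).totalDegree ≤ K) → (∀ j, (Ψ j).totalDegree ≤ K) →
    1 ≤ A → (∀ l, 1 ≤ l → l ≤ n → g' l ≤ g l + S) →
    (∀ l, 1 ≤ l → l ≤ n → ∀ y : ℕ → ℝ, (∀ j < l, |y j| ≤ 1) →
      |eval y (nat0 g' t Ψ (Ψ l - Φ l))| ≤ A / 2 ^ g l) →
    ∀ b b' : ℕ → ℝ, b 0 = t → b' 0 = t →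
    (∀ l, 1 ≤ l → l ≤ n → |b l - eval b (Ψ l)| ≤ 1 / 2 ^ g' l) →
    (∀ l, 1 ≤ l → l ≤ n → |b' l - eval b' (Ψ l)| ≤ 1 / 2 ^ g' l) →
    ∀ i, 1 ≤ i → i ≤ n →
    (∀ j, 1 ≤ j → j < i → |(b j - eval b (Φ j)) - (b' j - eval b' (Φ j))| ≤ 1 / 2 ^ (g j + d)) →
    |(b i - eval b (Φ i)) - (b' i - eval b' (Φ i))| ≤
      2 / 2 ^ g' i + (2 ^ (S + 1) * (C₀ * A)) ^ n / 2 ^ (g i + d) := by
  obtain ⟨K₁, hK₁⟩ : ∃ K₁ : ℕ, K₁ = K * (K + 1) ^ (n + 1) := ⟨_, rfl⟩
  choose C hC using fun i => n1_of_cube i K₁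
  obtain ⟨CC, hCC⟩ : ∃ CC : ℝ, CC = ∑ j ∈ range (n + 1), C j := ⟨_, rfl⟩
  have hle : ∀ i ≤ n, C i ≤ CC := fun i hi => by
    rw [hCC]
    exact Finset.single_le_sum (f := C) (fun j _ => zero_le_one.trans (hC j).1)
      (mem_range.2 (by omega))
  have hCC1 : 1 ≤ CC := (hC 0).1.trans (hle 0 (Nat.zero_le _))
  refine ⟨(K₁ + 1) * CC, by nlinarith [(Nat.cast_nonneg K₁ : (0 : ℝ) ≤ K₁)], ?_⟩
  intro Φ Ψ g g' t A S d hΦ hΨ hdΦ hdΨ hA hS hgood b b' hb0 hb0' hb hb' i hi hin hco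
  obtain ⟨C₀, hC₀⟩ : ∃ C₀ : ℝ, C₀ = (K₁ + 1) * CC := ⟨_, rfl⟩
  rw [← hC₀]
  have hC₀1 : 1 ≤ C₀ := by
    rw [hC₀]
    nlinarith [(Nat.cast_nonneg K₁ : (0 : ℝ) ≤ K₁)]
  obtain ⟨T, hT⟩ : ∃ T : ℝ, T = 2 ^ (S + 1) * (C₀ * A) := ⟨_, rfl⟩
  rw [← hT]
  have hCA : 1 ≤ C₀ * A := by nlinarith
  have hS1 : (1 : ℝ) ≤ 2 ^ S := one_le_pow₀ (by norm_num)
  have hTS : 2 * 2 ^ S * (C₀ * A) = T := by
    rw [hT, pow_succ]
    ring
  have hT1 : 1 ≤ T := by
    rw [← hTS]
    nlinarith
  -- the natural coordinates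
  have hnc : ∀ x : ℕ → ℝ, x 0 = t → (∀ l, 1 ≤ l → l ≤ n → |x l - eval x (Ψ l)| ≤ 1 / 2 ^ g' l) →
      ∀ j ≤ n, |nc g' (atc t Ψ) x j| ≤ 1 := by
    intro x hx0 hx j hj
    rcases Nat.eq_zero_or_pos j with rfl | h1
    · rw [nc_zero hx0, abs_zero]
      exact zero_le_one
    · have hp : (0 : ℝ) < 2 ^ g' j := by positivity
      rw [nc_atc h1, abs_mul, abs_of_pos hp]
      have h2 := mul_le_mul_of_nonneg_left (hx j h1 hj) hp.le
      rwa [mul_one_div_cancel hp.ne'] at h2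
  -- the difference of the labels is Lipschitz
  have hF : ∀ l, 1 ≤ l → l ≤ n → ∀ r : ℝ, 0 ≤ r → (∀ j < l,
      |nc g' (atc t Ψ) b j - nc g' (atc t Ψ) b' j| ≤ r) →
      |eval b (Ψ l - Φ l) - eval b' (Ψ l - Φ l)| ≤ C₀ * A / 2 ^ g l * r := by
    intro l l1 l2 r hr hr'
    have v1 : (Ψ l - Φ l).vars ⊆ range l := by
      classical
      exact Finset.Subset.trans (vars_sub_subset _) (Finset.union_subset (hΨ l) (hΦ l))
    have d1 : (Ψ l - Φ l).totalDegree ≤ K :=
      (totalDegree_sub _ _).trans (max_le (hdΨ l) (hdΦ l))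
    have v2 := nat0_vars (g := g') (t := t) hΨ v1
    have d2 := nat0_deg (g := g') (t := t) hΨ hdΨ l2 v1 d1
    have h0 : (0 : ℝ) ≤ A / 2 ^ g l := by positivity
    have h1 := (hC l).2 _ _ v2 (by rw [hK₁]; exact d2) (hgood l l1 l2)
    have h2 := lip_pn v2 d2 hr (fun j hj => hnc b hb0 hb j (by omega))
      (fun j hj => hnc b' hb0' hb' j (by omega)) hr'
    rw [nat0_eval hΨ _ hb0, nat0_eval hΨ _ hb0', ← hK₁] at h2
    refine h2.trans ?_
    have h3 : n1 (nat0 g' t Ψ (Ψ l - Φ l)) ≤ CC * (A / 2 ^ g l) :=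
      h1.trans (mul_le_mul_of_nonneg_right (hle l l2) h0)
    have h4 : (K₁ : ℝ) * n1 (nat0 g' t Ψ (Ψ l - Φ l)) ≤ (K₁ + 1) * (CC * (A / 2 ^ g l)) :=
      mul_le_mul (by linarith) h3 (n1_nonneg _) (by positivity)
    calc (K₁ : ℝ) * n1 (nat0 g' t Ψ (Ψ l - Φ l)) * r ≤ (K₁ + 1) * (CC * (A / 2 ^ g l)) * r :=
          mul_le_mul_of_nonneg_right h4 hr
      _ = C₀ * A / 2 ^ g l * r := by rw [hC₀]; ring
  have hsplit : ∀ (x : ℕ → ℝ) (l : ℕ), x l - eval x (Ψ l) =
      (x l - eval x (Φ l)) - eval x (Ψ l - Φ l) := by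
    intro x l
    rw [map_sub]
    ring
  have key : ∀ j, j < i → |nc g' (atc t Ψ) b j - nc g' (atc t Ψ) b' j| ≤ T ^ j / 2 ^ d := by
    intro j
    induction j using Nat.strong_induction_on with
    | _ j ih =>
      intro hj
      have hd : (0 : ℝ) < 2 ^ d := by positivity
      rcases Nat.eq_zero_or_pos j with rfl | h1
      · rw [nc_zero hb0, nc_zero hb0', sub_self, abs_zero]
        positivity
      · have h2 := hF j h1 (by omega) (T ^ (j - 1) / 2 ^ d) (by positivity) fun k hk =>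
          (ih k hk (by omega)).trans (div_le_div_of_nonneg_right
            (pow_le_pow_right₀ hT1 (by omega)) hd.le)
        have h3 := hco j h1 hj
        have h4 : |(b j - eval b (Ψ j)) - (b' j - eval b' (Ψ j))| ≤
            1 / 2 ^ (g j + d) + C₀ * A / 2 ^ g j * (T ^ (j - 1) / 2 ^ d) := by
          rw [hsplit b, hsplit b']
          have e : (b j - eval b (Φ j)) - eval b (Ψ j - Φ j) -
              ((b' j - eval b' (Φ j)) - eval b' (Ψ j - Φ j)) =
              ((b j - eval b (Φ j)) - (b' j - eval b' (Φ j))) -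
                (eval b (Ψ j - Φ j) - eval b' (Ψ j - Φ j)) := by ring
          rw [e]
          exact (abs_sub _ _).trans (add_le_add h3 h2)
        have hg : (2 : ℝ) ^ g' j ≤ 2 ^ g j * 2 ^ S := by
          rw [← pow_add]
          exact pow_le_pow_right₀ (by norm_num) (hS j h1 (by omega))
        have hgj : (0 : ℝ) < 2 ^ g j := by positivity
        rw [nc_atc h1, nc_atc h1, ← mul_sub, abs_mul,
          abs_of_pos (by positivity : (0 : ℝ) < 2 ^ g' j)]
        have h5 : (2 : ℝ) ^ g' j * |(b j - eval b (Ψ j)) - (b' j - eval b' (Ψ j))| ≤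
            2 ^ g j * 2 ^ S *
              (1 / 2 ^ (g j + d) + C₀ * A / 2 ^ g j * (T ^ (j - 1) / 2 ^ d)) :=
          mul_le_mul hg h4 (abs_nonneg _) (by positivity)
        have h6 : (2 : ℝ) ^ g j * 2 ^ S *
            (1 / 2 ^ (g j + d) + C₀ * A / 2 ^ g j * (T ^ (j - 1) / 2 ^ d)) =
            (2 ^ S + 2 ^ S * (C₀ * A) * T ^ (j - 1)) / 2 ^ d := by
          rw [pow_add]
          field_simp
        have h7 : (2 : ℝ) ^ S ≤ T ^ j / 2 := by
          have e1 : (2 : ℝ) ^ S * 2 ≤ T := by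
            rw [← hTS]
            nlinarith
          have e2 : T ≤ T ^ j := le_self_pow₀ hT1 (by omega)
          linarith
        have h8 : (2 : ℝ) ^ S * (C₀ * A) * T ^ (j - 1) = T ^ j / 2 := by
          have e1 : T ^ j = T * T ^ (j - 1) := by
            rw [← pow_succ']
            congr 1
            omega
          rw [e1, ← hTS]
          ring
        rw [h6, h8] at h5
        refine h5.trans (div_le_div_of_nonneg_right ?_ hd.le)
        linarith
  have f1 := hF i hi hin (T ^ (i - 1) / 2 ^ d) (by positivity) fun k hk =>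
    (key k hk).trans (div_le_div_of_nonneg_right (pow_le_pow_right₀ hT1 (by omega))
      (by positivity))
  have f2 : (b i - eval b (Φ i)) - (b' i - eval b' (Φ i)) =
      ((b i - eval b (Ψ i)) - (b' i - eval b' (Ψ i))) +
        (eval b (Ψ i - Φ i) - eval b' (Ψ i - Φ i)) := by
    rw [hsplit b, hsplit b']
    ring
  rw [f2]
  refine (abs_add_le _ _).trans (add_le_add ?_ (f1.trans ?_))
  · refine (abs_sub _ _).trans ((add_le_add (hb i hi hin) (hb' i hi hin)).trans (le_of_eq ?_))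
    ring
  · have e1 : C₀ * A * T ^ (i - 1) ≤ T ^ n := by
      have e2 : C₀ * A ≤ T := by
        rw [← hTS]
        nlinarith
      calc C₀ * A * T ^ (i - 1) ≤ T * T ^ (i - 1) :=
            mul_le_mul_of_nonneg_right e2 (by positivity)
        _ = T ^ i := by
            rw [← pow_succ']
            congr 1
            omega
        _ ≤ T ^ n := pow_le_pow_right₀ hT1 hin
    have e3 : C₀ * A / 2 ^ g i * (T ^ (i - 1) / 2 ^ d) = C₀ * A * T ^ (i - 1) / 2 ^ (g i + d) := by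
      rw [pow_add]
      field_simp
    rw [e3]
    exact div_le_div_of_nonneg_right e1 (by positivity)

end Pool.MIC6
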