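import Pool.Agent.H6.MIC.EntA
import Pool.Agent.H68.STAT.Lad

/-!
# The digits of the heights over coarse labels, given fine labels

`entA`: the count, from Remez for full variables (`rm_cel`) and the triangular estimate.
-/

set_option autoImplicit false

namespace Pool.MIC6

open Finset MvPolynomial
open Pool.Agent.H49.Ent Pool.Agent.H32.Dense Pool.STK Pool.KS3 Pool.STAT Pool.STAT.CLO
open Pool.BFL (Pl CB Pb P2 MC alt)

/-- The polynomial in the natural coordinates `1, …, m`. -/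
noncomputable def natF (m : ℕ) (g : ℕ → ℕ) (t : ℝ) (Ψ : ℕ → PN) (F : PN) : Pl m :=
  Pool.STAT.LAD.tp m (bind₁ (nuc g (atc t Ψ)) F)

theorem deg_natF {m : ℕ} {g : ℕ → ℕ} {t : ℝ} {Ψ : ℕ → PN} (hΨ : TriN Ψ) {F : PN} {i n K : ℕ}
    (hK : ∀ j, (Ψ j).totalDegree ≤ K) (hi : i ≤ n) (hv : F.vars ⊆ range i)
    (hF : F.totalDegree ≤ K) : (natF m g t Ψ F).totalDegree ≤ K * (K + 1) ^ (n + 1) :=
  (Pool.STAT.LAD.deg_tp _ _).trans
    (nat_deg (tri_atc (t := t) hΨ) (deg_atc hK) g hi hv hF).2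

/-- The natural coordinates of a sample. -/
noncomputable def xi (g : ℕ → ℕ) (Ψ : ℕ → PN) (x : ℕ → ℝ) (m : ℕ) (i : Fin m) : ℝ :=
  (2 : ℝ) ^ g (i + 1) * (x (i + 1) - eval x (Ψ (i + 1)))

/-- The polynomial at the sample. -/
theorem eval_natF {m : ℕ} {g : ℕ → ℕ} {t : ℝ} {Ψ : ℕ → PN} (hΨ : TriN Ψ) {F : PN} {l : ℕ}
    (hv : F.vars ⊆ range l) (hl : l ≤ m + 1) {x : ℕ → ℝ} (hx : x 0 = t) :
    eval (xi g Ψ x m) (natF m g t Ψ F) = eval x F := by
  unfold natF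
  rw [Pool.STAT.LAD.eval_tp]
  have hv' : (bind₁ (nuc g (atc t Ψ)) F).vars ⊆ range l :=
    AdxRow.vars_bnd hv fun k hk => (AdxRow.nuc_vars (tri_atc hΨ) g k).trans
      (Finset.range_mono (by omega))
  have h1 : eval (Pool.STAT.LAD.ext m (xi g Ψ x m)) (bind₁ (nuc g (atc t Ψ)) F) =
      eval (nc g (atc t Ψ) x) (bind₁ (nuc g (atc t Ψ)) F) := by
    refine Pool.STAT.LAD.eval_ext (y := nc g (atc t Ψ) x) hv' hl ?_ |>.symm ▸ ?_
    · exact nc_zero hx
    · rfl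
  rw [h1, eval_nat (tri_atc hΨ) g x F]

/-- From the box around the sample to the unit cube. -/
theorem cube_of_box {m : ℕ} {g : ℕ → ℕ} {t : ℝ} {Ψ : ℕ → PN} (hΨ : TriN Ψ) {F : PN} {l : ℕ}
    (hv : F.vars ⊆ range l) (hl : l ≤ m + 1) {B : Fin m → ℝ} (hB : ∀ i, |B i| ≤ 1) {s : ℝ}
    (h : ∀ b : Fin m → ℝ, (∀ i, |b i - B i| ≤ 2 / 2 ^ 0) → |eval b (natF m g t Ψ F)| ≤ s)
    (y : ℕ → ℝ) (hy : ∀ j < l, |y j| ≤ 1) : |eval y (nat0 g t Ψ F)| ≤ s := by
  have hv' : (bind₁ (nuc g (atc t Ψ)) F).vars ⊆ range l :=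
    AdxRow.vars_bnd hv fun k hk => (AdxRow.nuc_vars (tri_atc hΨ) g k).trans
      (Finset.range_mono (by omega))
  obtain ⟨y', hy'⟩ : ∃ y' : ℕ → ℝ, y' = fun j => if j = 0 then 0 else if j < l then y j else 0 :=
    ⟨_, rfl⟩
  have h0 : y' 0 = 0 := by
    rw [hy']
    simp
  have h1 := h (fun i => y' (i + 1)) (fun i => by
    have e1 : |y' ((i : ℕ) + 1)| ≤ 1 := by
      rw [hy']
      simp only [Nat.succ_ne_zero, if_false]
      split_ifs with h3
      · exact hy _ h3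
      · rw [abs_zero]
        exact zero_le_one
    rw [pow_zero, div_one]
    exact (abs_sub _ _).trans (by linarith [hB i]))
  unfold natF at h1
  rw [Pool.STAT.LAD.eval_tp, Pool.STAT.LAD.eval_ext hv' hl h0] at h1
  rw [eval_nat0]
  have h2 : eval (fun j => if j = 0 then 0 else y j) (bind₁ (nuc g (atc t Ψ)) F) =
      eval y' (bind₁ (nuc g (atc t Ψ)) F) := by
    refine AdxRow.evl_congr fun j hj => ?_
    have hj' := mem_range.1 (hv' hj)
    rw [hy']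
    simp only [hj', if_true]
  rw [h2]
  exact h1

/-- The cell `0` has few values. -/
theorem ch_cell {Ω Γ : Type} [Fintype Ω] {q : Ω → ℝ} (hq : IsLaw q) {m : ℕ}
    {B : Ω → Fin m → ℝ} {c : Ω → Γ} (hB : ∀ ω, 0 < q ω → ∀ i, |B ω i| ≤ 1) :
    CH q (fun ω i => ⌊B ω i⌋) c ≤ m * (3 * Real.log 2) := by
  have h1 := ch_vec hq (fun ω i => ⌊B ω i⌋) c (fun _ _ => 3) (fun i ω ω' h h' _ _ => by
    refine (Pool.STAT.LAD.fl_le (a := 2) ?_).trans (by norm_num)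
    exact (abs_sub _ _).trans (by linarith [hB ω h i, hB ω' h' i]))
  refine h1.trans ?_
  rw [Ex_const hq.sum_one, Finset.sum_const, Finset.card_range, nsmul_eq_mul]
  refine mul_le_mul_of_nonneg_left ?_ (Nat.cast_nonneg m)
  have e1 : (3 : ℝ) * Real.log 2 = Real.log (2 ^ 3) := by
    rw [Real.log_pow]
    norm_num
  rw [e1]
  exact Real.log_le_log (by norm_num) (by norm_num)

/-- The fullness of the digits behind the cell. -/
theorem full_cell {Ω Γ : Type} [Fintype Ω] {q : Ω → ℝ} (hq : IsLaw q) {m L : ℕ}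
    {B : Ω → Fin m → ℝ} {c : Ω → Γ} (hB : ∀ ω, 0 < q ω → ∀ i, |B ω i| ≤ 1) {δ : ℝ} (hL : 1 ≤ L)
    (h : ((m : ℝ) - δ) * (L * Real.log 2) ≤ CH q (fun ω i => ⌊(2 : ℝ) ^ L * B ω i⌋) c) :
    ((m : ℝ) - (δ + 3 * m / L)) * (L * Real.log 2) ≤
      CH q (fun ω i => ⌊(2 : ℝ) ^ (0 + L) * B ω i⌋)
        (fun ω => ((fun i => ⌊(2 : ℝ) ^ 0 * B ω i⌋), c ω)) := by
  have h1 := CH_le_add hq.nonneg (fun ω i => ⌊(2 : ℝ) ^ L * B ω i⌋) (fun ω i => ⌊B ω i⌋) c
  have h2 := ch_cell hq hB (c := c)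
  have e1 : (fun ω => ((fun i => ⌊(2 : ℝ) ^ 0 * B ω i⌋), c ω)) =
      fun ω => ((fun i => ⌊B ω i⌋), c ω) := by
    funext ω
    simp only [pow_zero, one_mul]
  rw [e1, Nat.zero_add]
  have hL' : (0 : ℝ) < L := by exact_mod_cast hL
  have e2 : ((m : ℝ) - (δ + 3 * m / L)) * (L * Real.log 2) =
      ((m : ℝ) - δ) * (L * Real.log 2) - m * (3 * Real.log 2) := by
    field_simp
    ring
  rw [e2]
  linarith

/-- The logarithm of the number of the digits behind the fine label. -/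
theorem log_good (a b : ℕ) : Real.log (2 * ((2 : ℝ) ^ a * (3 / 2 ^ b) + 1) + 1) ≤
    max 0 ((a : ℝ) - b) * Real.log 2 + Real.log 9 := by
  have hl : 0 < Real.log 2 := Real.log_pos one_lt_two
  have e0 : (2 : ℝ) * ((2 : ℝ) ^ a * (3 / 2 ^ b) + 1) + 1 = 6 * (2 ^ a / 2 ^ b) + 3 := by ring
  rw [e0]
  rcases le_total a b with h | h
  · have h1 : (2 : ℝ) ^ a / 2 ^ b ≤ 1 := by
      rw [div_le_one (by positivity)]
      exact pow_le_pow_right₀ one_le_two h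
    have h2 : (0 : ℝ) ≤ max 0 ((a : ℝ) - b) * Real.log 2 :=
      mul_nonneg (le_max_left _ _) hl.le
    have h3 : Real.log (6 * ((2 : ℝ) ^ a / 2 ^ b) + 3) ≤ Real.log 9 :=
      Real.log_le_log (by positivity) (by linarith)
    linarith
  · obtain ⟨k, rfl⟩ := Nat.exists_eq_add_of_le h
    have e1 : (2 : ℝ) ^ (b + k) / 2 ^ b = 2 ^ k := by
      rw [pow_add]
      field_simp
    have e2 : max 0 (((b + k : ℕ) : ℝ) - b) = k := by
      push_cast
      rw [add_sub_cancel_left]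
      exact max_eq_right (Nat.cast_nonneg k)
    rw [e1, e2]
    have h1 : (1 : ℝ) ≤ 2 ^ k := one_le_pow₀ one_le_two
    have h3 : Real.log (6 * (2 : ℝ) ^ k + 3) ≤ Real.log (9 * 2 ^ k) :=
      Real.log_le_log (by positivity) (by linarith)
    rw [Real.log_mul (by norm_num) (by positivity), Real.log_pow] at h3
    linarith

theorem log_bad (u : ℕ) : Real.log (2 * ((2 : ℝ) ^ (u + 1) + 1) + 1) ≤
    u * Real.log 2 + Real.log 9 := by
  have h1 : (1 : ℝ) ≤ 2 ^ u := one_le_pow₀ one_le_two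
  have h3 : Real.log (2 * ((2 : ℝ) ^ (u + 1) + 1) + 1) ≤ Real.log (9 * 2 ^ u) := by
    refine Real.log_le_log (by positivity) ?_
    rw [pow_succ]
    linarith
  rw [Real.log_mul (by norm_num) (by positivity), Real.log_pow] at h3
  linarith

theorem ex_split {Ω : Type} [Fintype Ω] {q : Ω → ℝ} (hq : IsLaw q) (G : Ω → Prop)
    {f : Ω → ℝ} {a b : ℝ} (ha : 0 ≤ a) (hb : 0 ≤ b) (h1 : ∀ ω, G ω → f ω ≤ a)
    (h2 : ∀ ω, ¬ G ω → f ω ≤ b) :
    Ex q f ≤ a + Pb q (fun ω => ¬ G ω) * b := by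
  classical
  have e1 : Pb q (fun ω => ¬ G ω) * b = Ex q (fun ω => if ¬ G ω then b else 0) := by
    unfold Pb Ex
    rw [Finset.sum_mul]
    refine Finset.sum_congr rfl fun ω _ => ?_
    by_cases h : G ω
    · simp only [h, not_true_eq_false, if_false, zero_mul, mul_zero]
    · simp only [h, not_false_eq_true, if_true]
  rw [e1, ← Ex_const hq.sum_one a, ← Ex_add]
  refine Ex_mono hq.nonneg fun ω _ => ?_
  by_cases h : G ω
  · rw [if_neg (not_not.2 h), add_zero]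
    exact h1 ω h
  · rw [if_pos h]
    linarith [h2 ω h]

/-- The union bound. -/
theorem pb_bad {Ω : Type} [Fintype Ω] {q : Ω → ℝ} (hq : ∀ ω, 0 ≤ q ω) {n : ℕ}
    {P : ℕ → Ω → Prop} {e : ℝ} (h : ∀ l, 1 ≤ l → l ≤ n → Pb q (fun ω => ¬ P l ω) ≤ e) :
    Pb q (fun ω => ¬ ∀ l, 1 ≤ l → l ≤ n → P l ω) ≤ n * e := by
  classical
  have h1 : Pb q (fun ω => ¬ ∀ l, 1 ≤ l → l ≤ n → P l ω) ≤
      ∑ l ∈ range n, Pb q (fun ω => ¬ P (l + 1) ω) := by
    unfold Pb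
    rw [Finset.sum_comm]
    refine Finset.sum_le_sum fun ω _ => ?_
    have hnn : ∀ k ∈ range n, 0 ≤ (if ¬ P (k + 1) ω then q ω else 0) := fun k _ => by
      split_ifs
      · exact le_rfl
      · exact hq ω
    by_cases hP : ∀ l, 1 ≤ l → l ≤ n → P l ω
    · rw [if_neg (not_not.2 hP)]
      exact Finset.sum_nonneg fun k hk => by
        have := hnn k hk
        split_ifs at this ⊢ <;> first | exact this | exact le_rfl | exact hq ω
    · obtain ⟨l, l1, l2, l3⟩ : ∃ l, 1 ≤ l ∧ l ≤ n ∧ ¬ P l ω := by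
        by_contra hc
        push Not at hc
        exact hP hc
      have hl : l - 1 ∈ range n := mem_range.2 (by omega)
      have h2 := Finset.single_le_sum hnn hl
      rw [Nat.sub_add_cancel l1, if_pos l3] at h2
      rw [if_pos hP]
      refine h2.trans (le_of_eq (Finset.sum_congr rfl fun k _ => ?_))
      by_cases h4 : P (k + 1) ω
      · rw [if_neg (not_not.2 h4), if_neg (not_not.2 h4)]
      · rw [if_pos h4, if_pos h4]
  refine h1.trans ?_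
  have h2 : ∑ l ∈ range n, Pb q (fun ω => ¬ P (l + 1) ω) ≤ ∑ _l ∈ range n, e :=
    Finset.sum_le_sum fun l hl => h (l + 1) (by omega) (by have := mem_range.1 hl; omega)
  rw [Finset.sum_const, Finset.card_range, nsmul_eq_mul] at h2
  exact h2

/-- The constants. -/
theorem num_exp {C₀ CR : ℝ} (h0 : 1 ≤ C₀) (hR : 1 ≤ CR) (k n : ℕ) : ∃ C : ℕ, 1 ≤ C ∧ CR ≤ C ∧
    ∀ (S L d : ℕ), 1 ≤ L → n * (S + 1 + C * L) + S ≤ d →
      (2 ^ (S + 1) * (C₀ * (2 * CR * 2 ^ (k * L)))) ^ n * (2 : ℝ) ^ S ≤ 2 ^ d := by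
  obtain ⟨N, hN⟩ := pow_unbounded_of_one_lt (C₀ * (2 * CR)) (one_lt_two : (1 : ℝ) < 2)
  obtain ⟨N', hN'⟩ := exists_nat_ge CR
  refine ⟨k + N + N' + 1, by omega, hN'.trans (by push_cast; linarith
    [(Nat.cast_nonneg k : (0 : ℝ) ≤ k), (Nat.cast_nonneg N : (0 : ℝ) ≤ N)]), ?_⟩
  intro S L d hL hd
  have h1 : C₀ * (2 * CR * 2 ^ (k * L)) ≤ 2 ^ ((k + N + N' + 1) * L) := by
    have e1 : C₀ * (2 * CR * 2 ^ (k * L)) = C₀ * (2 * CR) * 2 ^ (k * L) := by ring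
    rw [e1]
    have h2 : C₀ * (2 * CR) ≤ 2 ^ (N * L) :=
      hN.le.trans (pow_le_pow_right₀ one_le_two (Nat.le_mul_of_pos_right N hL))
    calc C₀ * (2 * CR) * 2 ^ (k * L) ≤ 2 ^ (N * L) * 2 ^ (k * L) :=
          mul_le_mul_of_nonneg_right h2 (by positivity)
      _ = 2 ^ (N * L + k * L) := by rw [pow_add]
      _ ≤ 2 ^ ((k + N + N' + 1) * L) := by
          refine pow_le_pow_right₀ one_le_two ?_
          have : (k + N + N' + 1) * L = N * L + k * L + (N' + 1) * L := by ring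
          omega
  have h3 : (2 : ℝ) ^ (S + 1) * (C₀ * (2 * CR * 2 ^ (k * L))) ≤
      2 ^ (S + 1 + (k + N + N' + 1) * L) := by
    rw [pow_add _ (S + 1)]
    exact mul_le_mul_of_nonneg_left h1 (by positivity)
  have h4 : (0 : ℝ) ≤ 2 ^ (S + 1) * (C₀ * (2 * CR * 2 ^ (k * L))) := by positivity
  calc (2 ^ (S + 1) * (C₀ * (2 * CR * 2 ^ (k * L)))) ^ n * (2 : ℝ) ^ S ≤
        (2 ^ (S + 1 + (k + N + N' + 1) * L)) ^ n * (2 : ℝ) ^ S :=
        mul_le_mul_of_nonneg_right (pow_le_pow_left₀ h4 h3 n) (by positivity)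
    _ = 2 ^ (n * (S + 1 + (k + N + N' + 1) * L) + S) := by
        rw [← pow_mul, ← pow_add]
        congr 1
        ring
    _ ≤ 2 ^ d := pow_le_pow_right₀ one_le_two hd

end Pool.MIC6
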