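import Pool.Agent.H32.Dense.EntX

/-!
# Nonfull rows given fewer digits of the base

`nf_abs`: a variable `N` which is not full given `W` is not full given the coarser variable `v`, if
`W` is full given a closed variable `c` and the entropy of `(v, N)` given `c` is small.
-/

set_option autoImplicit false

namespace Pool.MIC6

open Finset
open Pool.Agent.H49.Ent Pool.Agent.H32.Dense

/-- **From the condition `w` to the condition `v`**. -/
theorem nf_abs {Ω N Nr V W S Y : Type} [Fintype Ω] {q : Ω → ℝ} (h0 : ∀ ω, 0 ≤ q ω) (nN : Ω → N)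
    (nr : Ω → Nr) (v : Ω → V) (w : Ω → W) (x : Ω → S) (c : Ω → Y) (hr : Det q nN nr) :
    CH q nN (fun ω => (nr ω, (v ω, x ω))) ≤ CH q nN (fun ω => (nr ω, (w ω, x ω))) +
      (CH q w (fun ω => (v ω, x ω)) + CH q (fun ω => (v ω, nN ω)) c + CH q x c - CH q w c) := by
  have s1 := CH_chain h0 nN w (fun ω => (nr ω, (v ω, x ω)))
  have s2 := CH_chain h0 w nN (fun ω => (nr ω, (v ω, x ω)))
  have s3 : CH q (fun ω => (nN ω, w ω)) (fun ω => (nr ω, (v ω, x ω))) =
      CH q (fun ω => (w ω, nN ω)) (fun ω => (nr ω, (v ω, x ω))) := by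
    refine CH_congr h0 ?_ ?_ (fun _ _ _ _ h => h) (fun _ _ _ _ h => h) <;>
    · intro ω ω' _ _ hh
      simp only [Prod.mk.injEq] at hh ⊢
      tauto
  have s4 : CH q w (fun ω => (nr ω, (v ω, x ω))) ≤ CH q w (fun ω => (v ω, x ω)) :=
    CH_mono_cond h0 fun _ _ _ _ hh => (Prod.ext_iff.mp hh).2
  have s5 : CH q nN (fun ω => (w ω, (nr ω, (v ω, x ω)))) ≤
      CH q nN (fun ω => (nr ω, (w ω, x ω))) :=
    CH_mono_cond h0 fun _ _ _ _ hh => by
      simp only [Prod.mk.injEq] at hh ⊢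
      tauto
  have t1 : CH q w (fun ω => ((v ω, nN ω), (x ω, c ω))) ≤
      CH q w (fun ω => (nN ω, (nr ω, (v ω, x ω)))) := by
    refine CH_mono_cond h0 fun ω ω' a b hh => ?_
    simp only [Prod.mk.injEq] at hh ⊢
    exact ⟨hh.1.2, hr ω ω' a b hh.1.2, hh.1.1, hh.2.1⟩
  have t2 := CH_le_add h0 w x c
  have t3 := CH_le_add h0 w (fun ω => (v ω, nN ω)) (fun ω => (x ω, c ω))
  have t4 : CH q (fun ω => (v ω, nN ω)) (fun ω => (x ω, c ω)) ≤ CH q (fun ω => (v ω, nN ω)) c :=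
    CH_mono_cond h0 fun _ _ _ _ hh => (Prod.ext_iff.mp hh).2
  linarith

end Pool.MIC6
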