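import Pool.Agent.H6.MIC.EntC
import Pool.Agent.H6.MIC.NfP
import Pool.Agent.H6.SYS2.Cor

/-!
# Nonfull rows of a cell from the rate of the vertical

`NfH`: the positions of the base to `J` digits are full given the context and the exact time, and the
labels at the points have small variation in the cells of size `2 ^ (-J)`. `nf_row`: the row of the
target given natural digits of the base, from the rate of the target given the base to `J` digits.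
-/

set_option autoImplicit false

namespace Pool.MIC6

open Finset MvPolynomial
open Pool.Agent.H49.Ent Pool.Agent.H32.Dense Pool.STK Pool.KS3 Pool.STAT Pool.STAT.CLO
open Pool.BFL (Pl CB Pb P2 MC alt)

/-- The base to `J` digits. -/
noncomputable def vj (D : NDat2) (n J : ℕ) (ω : D.Ω) (l : Fin (n - 1)) : ℤ :=
  ⌊(2 : ℝ) ^ J * D.X ω (l + 1)⌋

/-- **The class inputs** of the nonfull rows, for the law `q`. -/
structure NfH (D : NDat2) (n J z M Y : ℕ) (L₀ κ : ℝ) (q : D.Ω → ℝ) : Prop where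
  -- the labels have small variation in the small cells
  near : ∀ i ≤ M, ∀ j ≤ M, ∀ ω ω', 0 < q ω → 0 < q ω' → D.s i j ω = D.s i j ω' →
    D.T ω = D.T ω' → ∀ l, 1 ≤ l → l ≤ n →
    (∀ k : Fin (n - 1), (k : ℕ) + 1 < l → vj D n J ω k = vj D n J ω' k) →
    |eval (D.X ω) (D.Ψ i j ω l) - eval (D.X ω') (D.Ψ i j ω' l)| ≤ L₀ / 2 ^ (D.g i j l + Y)
  -- the base is exact to `J` digits
  ex : ∀ i ≤ M, ∀ j ≤ M,
    (∑ l ∈ range (n - 1), ((J : ℝ) - D.g i j (l + 1))) * Real.log 2 - κ * z ≤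
      CH q (vj D n J) (fun ω => (D.c i j ω, D.T ω))
  siz : ∀ i ≤ M, ∀ j ≤ M, ∀ l, 1 ≤ l → l ≤ n → D.g i j l + Y ≤ J

variable {D : NDat2} {n K J a₀ w₀ z M Y : ℕ} {lam gam : ℕ → ℝ} {κ κ' C₁ L₀ : ℝ} {q : D.Ω → ℝ}

/-- Equal digits. -/
theorem sh_near {i j l d : ℕ} {ω ω' : D.Ω}
    (h : ⌊(2 : ℝ) ^ (D.g i j l + d) * D.sh i j ω l⌋ = ⌊(2 : ℝ) ^ (D.g i j l + d) * D.sh i j ω' l⌋) :
    |D.sh i j ω l - D.sh i j ω' l| ≤ 1 / 2 ^ (D.g i j l + d) := floor_near h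

theorem pos_near {i j l : ℕ} {ω ω' : D.Ω} {a b : ℝ} (h : |D.sh i j ω l - D.sh i j ω' l| ≤ a)
    (h' : |eval (D.X ω) (D.Ψ i j ω l) - eval (D.X ω') (D.Ψ i j ω' l)| ≤ b) :
    |D.X ω l - D.X ω' l| ≤ a + b := by
  have e : D.X ω l - D.X ω' l = (D.sh i j ω l - D.sh i j ω' l) +
      (eval (D.X ω) (D.Ψ i j ω l) - eval (D.X ω') (D.Ψ i j ω' l)) := by
    unfold NDat2.sh
    ring
  rw [e]
  exact (abs_add_le _ _).trans (add_le_add h h')

theorem near_sh {i j l : ℕ} {ω ω' : D.Ω} {a b : ℝ} (h : |D.X ω l - D.X ω' l| ≤ a)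
    (h' : |eval (D.X ω) (D.Ψ i j ω l) - eval (D.X ω') (D.Ψ i j ω' l)| ≤ b) :
    |D.sh i j ω l - D.sh i j ω' l| ≤ a + b := by
  have e : D.sh i j ω l - D.sh i j ω' l = (D.X ω l - D.X ω' l) -
      (eval (D.X ω) (D.Ψ i j ω l) - eval (D.X ω') (D.Ψ i j ω' l)) := by
    unfold NDat2.sh
    ring
  rw [e]
  exact (abs_sub _ _).trans (add_le_add h h')

theorem two_pow_div {a b : ℕ} (h : b ≤ a) {x : ℝ} : (2 : ℝ) ^ a * (x / 2 ^ b) = x * 2 ^ (a - b) := by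
  obtain ⟨k, rfl⟩ := Nat.exists_eq_add_of_le h
  rw [Nat.add_sub_cancel_left, pow_add]
  field_simp

theorem log_cell {L₀ : ℝ} (hL : 0 ≤ L₀) {a b : ℕ} (h : b ≤ a) :
    Real.log (2 * ((2 : ℝ) ^ a * ((1 + L₀) / 2 ^ b) + 1) + 1) ≤
      ((a : ℝ) - b) * Real.log 2 + Real.log (5 + 2 * L₀) := by
  rw [two_pow_div h]
  have h1 : (1 : ℝ) ≤ 2 ^ (a - b) := one_le_pow₀ one_le_two
  have h3 : Real.log (2 * ((1 + L₀) * 2 ^ (a - b) + 1) + 1) ≤
      Real.log ((5 + 2 * L₀) * 2 ^ (a - b)) := by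
    refine Real.log_le_log (by positivity) ?_
    nlinarith
  rw [Real.log_mul (by positivity) (by positivity), Real.log_pow, Nat.cast_sub h] at h3
  linarith

/-- **The base to `J` digits given natural digits.** -/
theorem NfH.ch_vj (h : NfH D n J z M Y L₀ κ q) (hq : IsLaw q) (hL : 0 ≤ L₀) {i j d : ℕ} (hi : i ≤ M)
    (hj : j ≤ M) (hd : d ≤ Y) {W : Type} {y : D.Ω → W}
    (hy : Det q y (fun ω => (D.vd n i j d ω, (D.s i j ω, D.T ω)))) :
    CH q (vj D n J) y ≤ ∑ l ∈ range (n - 1),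
      (((J : ℝ) - (D.g i j (l + 1) + d : ℕ)) * Real.log 2 + Real.log (5 + 2 * L₀)) := by
  have key := ch_vec hq (vj D n J) y
    (fun l _ => (2 : ℝ) ^ J * ((1 + L₀) / 2 ^ (D.g i j (l + 1) + d)) + 1)
    (fun l ω ω' hω hω' hyy hk => by
      have e := hy ω ω' hω hω' hyy
      simp only [Prod.mk.injEq] at e
      obtain ⟨e1, e2, e3⟩ := e
      have h1 := sh_near (congrFun e1 l)
      have h2 := h.near i hi j hj ω ω' hω hω' e2 e3 (l + 1) (by omega) (by omega)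
        (fun k hk' => hk k (by
          show (k : ℕ) < l
          omega))
      have h3 : L₀ / 2 ^ (D.g i j (l + 1) + Y) ≤ L₀ / 2 ^ (D.g i j (l + 1) + d) :=
        div_le_div_of_nonneg_left hL (by positivity)
          (pow_le_pow_right₀ one_le_two (by omega))
      have h4 := pos_near h1 (h2.trans h3)
      rw [← add_div] at h4
      exact hgt_diff h4)
  refine key.trans (Finset.sum_le_sum fun l hl => ?_)
  have hl' := mem_range.1 hl
  rw [Ex_const hq.sum_one]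
  exact log_cell hL (by
    have := h.siz i hi j hj (l + 1) (by omega) (by omega)
    omega)

/-- **Natural digits are full.** -/
theorem NfH.full (h : NfH D n J z M Y L₀ κ q) (hq : IsLaw q) (hL : 0 ≤ L₀) {i j d : ℕ} (hi : i ≤ M)
    (hj : j ≤ M) (hd : d ≤ Y) (hs : Det q (fun ω => (D.c i j ω, D.T ω)) (D.s i j)) :
    ((n - 1 : ℕ) : ℝ) * (d * Real.log 2) - κ * z - ((n - 1 : ℕ) : ℝ) * Real.log (5 + 2 * L₀) ≤
      CH q (D.vd n i j d) (fun ω => (D.c i j ω, D.T ω)) := by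
  have h1 := CH_le_add hq.nonneg (vj D n J) (D.vd n i j d) (fun ω => (D.c i j ω, D.T ω))
  have h2 := h.ch_vj hq hL hi hj hd (y := fun ω => (D.vd n i j d ω, (D.c i j ω, D.T ω)))
    (fun ω ω' hω hω' e => by
      simp only [Prod.mk.injEq] at e ⊢
      exact ⟨e.1, hs ω ω' hω hω' (Prod.ext e.2.1 e.2.2), e.2.2⟩)
  have h3 := h.ex i hi j hj
  rw [Finset.sum_add_distrib, Finset.sum_const, Finset.card_range, nsmul_eq_mul,
    ← Finset.sum_mul] at h2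
  have h4 : ∑ l ∈ range (n - 1), ((J : ℝ) - (D.g i j (l + 1) + d : ℕ)) =
      ∑ l ∈ range (n - 1), ((J : ℝ) - D.g i j (l + 1)) - ((n - 1 : ℕ) : ℝ) * d := by
    have e : ∀ l ∈ range (n - 1), (J : ℝ) - (D.g i j (l + 1) + d : ℕ) =
        ((J : ℝ) - D.g i j (l + 1)) - d := fun l _ => by
      push_cast
      ring
    rw [Finset.sum_congr rfl e, Finset.sum_sub_distrib, Finset.sum_const, Finset.card_range,
      nsmul_eq_mul]
  rw [h4, sub_mul] at h2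
  linarith

/-- The contexts at smaller radii determine the label at the point. -/
theorem det_s (hO : D.Ok2 n K J a₀ w₀ z M lam gam κ' C₁ q) {i i' j : ℕ} (hi : i ≤ i')
    (hi' : i' ≤ M) (hj : j ≤ M) : Det q (fun ω => (D.c i' j ω, D.T ω)) (D.s i j) := by
  obtain ⟨N, rfl⟩ := Nat.exists_eq_add_of_le hi
  have h1 := det_steps (q := q) (f := fun k => D.c k j) (m := i) (N := N)
    fun k hk => hO.c_i _ (by omega) _ hj
  intro ω ω' a b e
  simp only [Prod.mk.injEq] at e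
  exact hO.s_c i (by omega) j hj ω ω' a b (Prod.ext (h1 ω ω' a b e.1) e.2)

/-- The two labels: coarse at `(i, j)`, fine at `(i', j)`. -/
theorem two_l (hO : D.Ok2 n K J a₀ w₀ z M lam gam κ' C₁ q) {i i' j S : ℕ} (hi : i ≤ i')
    (hi' : i' ≤ M) (hj : j ≤ M)
    (hg : ∀ l, 1 ≤ l → l ≤ n → D.g i j l ≤ D.g i' j l ∧ D.g i' j l ≤ D.g i j l + S) :
    TwoL n K S q D.X (fun ω => (D.s i j ω, (D.s i' j ω, (D.c i' j ω, D.T ω))))
      (fun x => (x.2.2.2 : ℝ) / 2 ^ J) (fun x => D.G i j x.1) (fun x => D.G i' j x.2.1)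
      (D.g i j) (D.g i' j) where
  time ω _ := hO.X_zero ω
  triΦ x := hO.G_tri i j x.1
  triΨ x := hO.G_tri i' j x.2.1
  degΦ x l := hO.G_deg i j x.1 l
  degΨ x l := hO.G_deg i' j x.2.1 l
  g_le l l1 l2 := (hg l l1 l2).1
  g_ge l l1 l2 := (hg l l1 l2).2
  hgt ω hω l l1 l2 := hO.pos i (hi.trans hi') j hj ω hω l l1 l2
  hgt' ω hω l l1 l2 := hO.pos i' hi' j hj ω hω l l1 l2

/-- The depths of the digits. -/
def dep (n d p l : ℕ) : ℕ := if l < n then d else p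

theorem sum_dep {n d p S : ℕ} {g g' : ℕ → ℕ} {e : ℝ} (hn : 1 ≤ n) (hl2 : 0 < Real.log 2)
    (hl9 : 0 < Real.log 9) (hg : ∀ l, 1 ≤ l → l ≤ n → g' l ≤ g l + S) (hd : S ≤ d)
    (he : 0 ≤ e) :
    ∑ l ∈ range n, (max 0 (((g (l + 1) + dep n d p (l + 1) : ℕ) : ℝ) - g' (l + 1)) * Real.log 2 +
      Real.log 9 + n * e * (dep n d p (l + 1) * Real.log 2 + Real.log 9)) ≤
      ∑ l ∈ range (n - 1), (((g (l + 1) + d : ℕ) : ℝ) - g' (l + 1)) * Real.log 2 +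
      max 0 (((g n + p : ℕ) : ℝ) - g' n) * Real.log 2 + n * Real.log 9 +
      n * (n * e * ((d + p : ℕ) * Real.log 2 + Real.log 9)) := by
  obtain ⟨k, rfl⟩ : ∃ k, n = k + 1 := ⟨n - 1, by omega⟩
  have e1 : dep (k + 1) d p (k + 1) = p := if_neg (lt_irrefl _)
  rw [Finset.sum_range_succ, Nat.add_sub_cancel, e1]
  have h1 : ∀ l ∈ range k, (max 0 (((g (l + 1) + dep (k + 1) d p (l + 1) : ℕ) : ℝ) - g' (l + 1)) *
      Real.log 2 + Real.log 9 +
      (k + 1 : ℕ) * e * (dep (k + 1) d p (l + 1) * Real.log 2 + Real.log 9)) ≤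
      (((g (l + 1) + d : ℕ) : ℝ) - g' (l + 1)) * Real.log 2 + (Real.log 9 +
        (k + 1 : ℕ) * e * ((d + p : ℕ) * Real.log 2 + Real.log 9)) := by
    intro l hl
    have hl' := mem_range.1 hl
    have e2 : dep (k + 1) d p (l + 1) = d := if_pos (by omega)
    have h2 : (g' (l + 1) : ℝ) ≤ (g (l + 1) + d : ℕ) := by
      have := hg (l + 1) (by omega) (by omega)
      exact_mod_cast (by omega : g' (l + 1) ≤ g (l + 1) + d)
    rw [e2, max_eq_right (by linarith), add_assoc]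
    refine add_le_add le_rfl (add_le_add le_rfl (mul_le_mul_of_nonneg_left ?_ (by positivity)))
    have h3 : (d : ℝ) ≤ (d + p : ℕ) := by exact_mod_cast Nat.le_add_right d p
    nlinarith
  refine (add_le_add (Finset.sum_le_sum h1) le_rfl).trans ?_
  rw [Finset.sum_add_distrib, Finset.sum_const, Finset.card_range, nsmul_eq_mul]
  have h4 : ((k + 1 : ℕ) : ℝ) * e * (p * Real.log 2 + Real.log 9) ≤
      (k + 1 : ℕ) * e * ((d + p : ℕ) * Real.log 2 + Real.log 9) := by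
    refine mul_le_mul_of_nonneg_left ?_ (by positivity)
    have h3 : (p : ℝ) ≤ (d + p : ℕ) := by exact_mod_cast Nat.le_add_left p d
    nlinarith
  push_cast at h4 ⊢
  nlinarith

/-- **The count for a cell.** -/
theorem nf_count (n K : ℕ) (hn : 1 ≤ n) : ∃ C : ℕ, 1 ≤ C ∧ ∀ {D : NDat2}
    {J a₀ w₀ z M Y : ℕ} {lam gam : ℕ → ℝ} {κ κ' C₁ L₀ : ℝ} {q : D.Ω → ℝ},
    D.Ok2 n K J a₀ w₀ z M lam gam κ' C₁ q → NfH D n J z M Y L₀ κ q → 0 ≤ L₀ → 0 ≤ κ →
    ∀ {i i' j S L d p : ℕ}, i ≤ i' → i' ≤ M → j ≤ M →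
    (∀ l, 1 ≤ l → l ≤ n → D.g i j l ≤ D.g i' j l ∧ D.g i' j l ≤ D.g i j l + S) →
    1 ≤ L → L ≤ Y → n * (S + 1 + C * L) + S ≤ d →
    CH q (fun ω => (D.vd n i j d ω, D.nd n i j p ω)) (fun ω => (D.c i' j ω, D.T ω)) ≤
      ∑ l ∈ range (n - 1), (((D.g i j (l + 1) + d : ℕ) : ℝ) - D.g i' j (l + 1)) * Real.log 2 +
      max 0 (((D.g i j n + p : ℕ) : ℝ) - D.g i' j n) * Real.log 2 + n * Real.log 9 +
      n * (n * ((κ * z + ((n - 1 : ℕ) : ℝ) * Real.log (5 + 2 * L₀)) / (L * Real.log 2) + C / L) *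
        ((d + p : ℕ) * Real.log 2 + Real.log 9)) := by
  obtain ⟨C, hC, hent⟩ := entA n K
  refine ⟨C, hC, ?_⟩
  intro D J a₀ w₀ z M Y lam gam κ κ' C₁ L₀ q hO h hL₀ hκ i i' j S L d p hi hi' hj hg hL hLY hd
  have hq := hO.isLaw
  have hs' := det_s hO le_rfl hi' hj
  have hs := det_s hO hi hi' hj
  have hLR : (0 : ℝ) < L := by exact_mod_cast hL
  have hl2 : 0 < Real.log 2 := Real.log_pos one_lt_two
  have hl9 : 0 < Real.log 9 := Real.log_pos (by norm_num)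
  have hfull := h.full hq hL₀ hi' hj hLY (fun ω ω' a b e => hs' ω ω' a b e)
  obtain ⟨e0, he0⟩ : ∃ e0 : ℝ, e0 = κ * z + ((n - 1 : ℕ) : ℝ) * Real.log (5 + 2 * L₀) := ⟨_, rfl⟩
  rw [← he0]
  obtain ⟨γ, hγ⟩ : ∃ γ : D.Ω → D.S × (D.S × (D.Γ × ℕ)),
      γ = fun ω => (D.s i j ω, (D.s i' j ω, (D.c i' j ω, D.T ω))) := ⟨_, rfl⟩
  have hd1 : Det q (fun ω => (D.c i' j ω, D.T ω)) γ := by
    intro ω ω' a b e
    rw [hγ]
    exact Prod.ext (hs ω ω' a b e) (Prod.ext (hs' ω ω' a b e) e)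
  have hd2 : Det q γ (fun ω => (D.c i' j ω, D.T ω)) := by
    intro ω ω' _ _ e
    rw [hγ] at e
    exact (Prod.ext_iff.1 (Prod.ext_iff.1 e).2).2
  have hT := two_l hO (S := S) hi hi' hj hg
  rw [← hγ] at hT
  have e1 : (fun ω (l : Fin (n - 1)) => ⌊(2 : ℝ) ^ L *
      xi (D.g i' j) ((fun x : D.S × (D.S × (D.Γ × ℕ)) => D.G i' j x.2.1) (γ ω)) (D.X ω)
        (n - 1) l⌋) = D.vd n i' j L := by
    funext ω l
    rw [hγ]
    show ⌊(2 : ℝ) ^ L * (2 ^ D.g i' j (l + 1) * D.sh i' j ω (l + 1))⌋ = _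
    rw [← mul_assoc, ← pow_add, add_comm L]
    rfl
  have hcnt := hent hq hT hL (δ := e0 / (L * Real.log 2)) (d := d) (u := dep n d p)
    (by
      rw [e1]
      have h1 : CH q (D.vd n i' j L) (fun ω => (D.c i' j ω, D.T ω)) ≤
          CH q (D.vd n i' j L) γ := CH_mono_cond hq.nonneg hd1
      refine le_trans (le_of_eq ?_) (le_trans hfull h1)
      rw [sub_sub, ← he0]
      field_simp) hd (fun l _ l2 => by
      unfold dep
      rw [if_pos l2])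
  have h2 : CH q (fun ω => (D.vd n i j d ω, D.nd n i j p ω)) (fun ω => (D.c i' j ω, D.T ω)) ≤
      CH q (dgC D.X γ (fun x => D.G i j x.1) (D.g i j) (dep n d p) n) γ := by
    have h3 : CH q (fun ω => (D.vd n i j d ω, D.nd n i j p ω)) (fun ω => (D.c i' j ω, D.T ω)) ≤
        CH q (fun ω => (D.vd n i j d ω, D.nd n i j p ω)) γ := CH_mono_cond hq.nonneg hd1
    refine h3.trans (CH_mono_left hq.nonneg fun ω ω' _ _ e => ?_)
    have e2 := (Prod.ext_iff.1 e).1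
    refine Prod.ext ?_ ?_
    · funext l
      have e3 := congrFun e2 ⟨l, by omega⟩
      unfold dgC at e3
      rw [hγ] at e3
      have e4 : dep n d p ((l : ℕ) + 1) = d := by
        unfold dep
        rw [if_pos (by omega)]
      simp only [e4] at e3
      exact e3
    · have e3 := congrFun e2 ⟨n - 1, by omega⟩
      unfold dgC at e3
      rw [hγ] at e3
      have e4 : dep n d p n = p := by
        unfold dep
        rw [if_neg (by omega)]
      simp only [Nat.sub_add_cancel hn, e4] at e3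
      exact e3
  refine h2.trans (hcnt.trans ?_)
  refine sum_dep hn hl2 hl9 (fun l l1 l2 => (hg l l1 l2).2) (by omega) ?_
  have h5 : 0 ≤ e0 := by
    rw [he0]
    have : 0 ≤ Real.log (5 + 2 * L₀) := Real.log_nonneg (by linarith)
    positivity
  positivity

/-! ### The rate -/

theorem ch_few {Ω W : Type} [Fintype Ω] {q : Ω → ℝ} (hq : IsLaw q) (Y : Ω → ℤ) (y : Ω → W)
    {L₀ : ℝ} (h : ∀ ω ω', 0 < q ω → 0 < q ω' → y ω = y ω' → |((Y ω - Y ω' : ℤ) : ℝ)| ≤ 2 + L₀) :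
    CH q Y y ≤ Real.log (5 + 2 * L₀) := by
  refine (CH_le_int hq.nonneg hq.sum_one Y y (fun _ => 2 + L₀) h).trans ?_
  rw [Ex_const hq.sum_one]
  exact le_of_eq (by ring_nf)

/-- **The natural digits of the target from the digits of its position.** -/
theorem NfH.rate (h : NfH D n J z M Y L₀ κ q) (hq : IsLaw q) (hL : 0 ≤ L₀) (hn : 1 ≤ n)
    {i j r p : ℕ} (hi : i ≤ M) (hj : j ≤ M) (hr : r ≤ p) (hp : p ≤ Y) :
    CH q (D.nd n i j p) (fun ω => (D.nd n i j r ω, (vj D n J ω, (D.s i j ω, D.T ω)))) ≤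
      CH q (fun ω => ⌊(2 : ℝ) ^ (D.g i j n + p) * D.X ω n⌋)
        (fun ω => (⌊(2 : ℝ) ^ (D.g i j n + r) * D.X ω n⌋, (vj D n J ω, D.T ω))) +
      2 * Real.log (5 + 2 * L₀) := by
  obtain ⟨xQ, hxQ⟩ : ∃ xQ : D.Ω → ℤ, xQ = fun ω => ⌊(2 : ℝ) ^ (D.g i j n + p) * D.X ω n⌋ :=
    ⟨_, rfl⟩
  obtain ⟨xP, hxP⟩ : ∃ xP : D.Ω → ℤ, xP = fun ω => ⌊(2 : ℝ) ^ (D.g i j n + r) * D.X ω n⌋ :=
    ⟨_, rfl⟩
  rw [← hxQ]
  have hxP' : (fun ω => (⌊(2 : ℝ) ^ (D.g i j n + r) * D.X ω n⌋, (vj D n J ω, D.T ω))) =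
      fun ω => (xP ω, (vj D n J ω, D.T ω)) := by rw [hxP]
  rw [hxP']
  obtain ⟨y, hy⟩ : ∃ y : D.Ω → ℤ × ((Fin (n - 1) → ℤ) × (D.S × ℕ)),
      y = fun ω => (D.nd n i j r ω, (vj D n J ω, (D.s i j ω, D.T ω))) := ⟨_, rfl⟩
  rw [← hy]
  have hpos : ∀ k : ℕ, (0 : ℝ) < 2 ^ k := fun k => by positivity
  -- the label at the point
  have hΨ : ∀ ω ω', 0 < q ω → 0 < q ω' → y ω = y ω' → ∀ k ≤ Y,
      |eval (D.X ω) (D.Ψ i j ω n) - eval (D.X ω') (D.Ψ i j ω' n)| ≤ L₀ / 2 ^ (D.g i j n + k) := by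
    intro ω ω' a b e k hk
    rw [hy] at e
    simp only [Prod.mk.injEq] at e
    obtain ⟨-, e2, e3, e4⟩ := e
    refine (h.near i hi j hj ω ω' a b e3 e4 n hn le_rfl fun k _ => congrFun e2 k).trans ?_
    exact div_le_div_of_nonneg_left hL (hpos _) (pow_le_pow_right₀ one_le_two (by omega))
  have hbd : ∀ (k : ℕ) (x x' : ℝ), |x - x'| ≤ 1 / 2 ^ k + L₀ / 2 ^ k →
      |((⌊(2 : ℝ) ^ k * x⌋ - ⌊(2 : ℝ) ^ k * x'⌋ : ℤ) : ℝ)| ≤ 2 + L₀ := by
    intro k x x' hx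
    refine (hgt_diff hx).trans (le_of_eq ?_)
    have := hpos k
    field_simp
    ring
  have s1 : CH q (D.nd n i j p) (fun ω => (xQ ω, y ω)) ≤ Real.log (5 + 2 * L₀) := by
    refine ch_few hq _ _ fun ω ω' a b e => ?_
    have e1 := (Prod.ext_iff.1 e).1
    have e2 := (Prod.ext_iff.1 e).2
    rw [hxQ] at e1
    exact hbd _ _ _ (near_sh (floor_near e1) (hΨ ω ω' a b e2 p hp))
  have s2 : CH q xP y ≤ Real.log (5 + 2 * L₀) := by
    refine ch_few hq _ _ fun ω ω' a b e => ?_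
    have h1 := hΨ ω ω' a b e r (hr.trans hp)
    rw [hy] at e
    have e1 := (Prod.ext_iff.1 e).1
    rw [hxP]
    exact hbd _ _ _ (pos_near (floor_near e1) h1)
  have s3 := CH_le_add hq.nonneg (D.nd n i j p) xQ y
  have s4 := CH_le_add hq.nonneg xQ xP y
  have s5 : CH q xQ (fun ω => (xP ω, y ω)) ≤ CH q xQ (fun ω => (xP ω, (vj D n J ω, D.T ω))) := by
    refine CH_mono_cond hq.nonneg fun ω ω' _ _ e => ?_
    rw [hy] at e
    simp only [Prod.mk.injEq] at e ⊢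
    exact ⟨e.1, e.2.2.1, e.2.2.2.2⟩
  linarith

end Pool.MIC6
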