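import Pool.Agent.H6.MIC.NfR
import Pool.Agent.H40.MIC.Asm1

/-!
# Nonfull rows of a cell, the class inputs

`nfh_fam`: the inputs `NfH` of the row for the cell `GDat.nd` of a family, from the records (`RcF`,
`ValF`) and the exactness of the base (`ExF`).
-/

set_option autoImplicit false

namespace Pool.MIC6

open Finset MvPolynomial
open Pool.Agent.H49.Ent Pool.Agent.H32.Dense Pool.STK Pool.KS3 Pool.STAT Pool.STAT.CLO
open Pool.KA Pool.KSAT Pool.PB Pool.GEN Pool.K2S Pool.S6C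

/-- The sizes: the gradients of all the labels are visible, `Y` digits more. -/
def SizY (n J Y M s₂ : ℕ) (e : ℕ → ℕ → ℕ) (g : ℕ → ℕ → ℕ → ℕ) : Prop :=
  ∀ i ≤ M, ∀ j ≤ M, ∀ l < n, (range (l + 1)).sup (g i j) + e i j + Y + s₂ ≤ J

/-- **The inputs of the row for a family.** -/
theorem nfh_fam (n K K' s₁ : ℕ) (sh : ℕ → ℕ) (hK' : 1 ≤ K') : ∃ (L : ℝ) (s₂ : ℕ), 1 ≤ L ∧
    ∀ {m J : ℕ} {F : Fam m J} {D : GDat F} {c : ℕ → Fin m} {a₀ w₀ z M Y : ℕ} {e : ℕ → ℕ → ℕ}
    {g : ℕ → ℕ → ℕ → ℕ} {B : F.Ω → Prop} {R : ℕ → ℕ → Type} {ρ : (i j : ℕ) → LnT F → R i j}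
    {k C₂ : ℝ}, D.Ok c n K K' s₁ sh a₀ w₀ z M e g B → Inj c n →
    w₀ + M * z ≤ J → a₀ + M * z ≤ J →
    (∀ i ≤ M, ∀ j ≤ M, ∀ l < n, sh (l + 1) ≤ g i j l) → SizY n J Y M s₂ e g →
    ∀ {q : F.Ω → ℝ}, IsLaw q → (∀ ω, 0 < q ω → B ω) →
    RcF F ρ w₀ z M (k * z) (C₂ * z) q → ValF D ρ w₀ z M (k * z) q →
    ExF F c n sh ρ w₀ z M g (k * z) q →
    NfH (D.nd c n sh w₀ z M g ρ) n J z M Y L (k + (M + 1) ^ 3 * k) q := by
  obtain ⟨L, s₂, hL, hnear⟩ := near_gx n n K K' s₁ sh le_rfl hK'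
  refine ⟨L, s₂, hL, ?_⟩
  intro m J F D c a₀ w₀ z M Y e g B R ρ k C₂ h hc hwM haM hsh hsiz q hq hB hr hv hx
  have hgle : ∀ i j l, g i j l ≤ (range (l + 1)).sup (g i j) := fun i j l =>
    Finset.le_sup (f := g i j) (mem_range.2 (by omega))
  have hgnd : ∀ i j l, 1 ≤ l → (D.nd c n sh w₀ z M g ρ).g i j l = g i j (l - 1) - sh l :=
    fun i j l l1 => CDat2.nd2_g _ _ _ _ _ _ _ l1
  refine ⟨fun i hi j hj ω ω' hω hω' es eT l l1 l2 hk => ?_, fun i hi j hj => ?_,
    fun i hi j hj l l1 l2 => ?_⟩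
  · have hai : a₀ + i * z ≤ J := by
      have : i * z ≤ M * z := Nat.mul_le_mul_right _ hi
      omega
    have hch := h.chn i hi j hj
    have hO := h.out i hi j hj
    have et : F.t ω = F.t ω' := by
      unfold Fam.t
      rw [show F.T ω = F.T ω' from eT]
    have ez : D.zS i j (ptr F J ω) = D.zS i j (ptr F J ω') := es
    have eΨ : ∀ ω, (D.nd c n sh w₀ z M g ρ).Ψ i j ω l = (D.cd n ρ).Ps2 i j ω l := fun ω =>
      CDat2.nd2_Ψ (D.cd n ρ) (cx F fun i => c (i - 1)) (pc c) w₀ z M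
        (fun i j l => g i j (l - 1) - sh l) hi hj l1 l2 ω
    rw [hgnd i j l l1, eΨ, eΨ]
    have h1 := hnear m J F c (a₀ + i * z) (g i j)
      (fun l => e i j + ((range (l + 1)).sup (g i j) - g i j l)) Y (D.G i j (ptr F J ω))
      (D.PS i j (D.zS i j (ptr F J ω))) ω hai hc (fun k _ => hch.degG _ k)
      (fun k => hch.depG _ k) (fun k hk b hb l hl => by
        refine (hch.lip ω (hB ω hω) k (by omega) b hb l hl).trans ?_
        refine pow_le_pow_right₀ (by norm_num) (Nat.add_le_add_left ?_ _)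
        unfold nlp
        have h5 : (Finset.Icc l k).sup (g i j) ≤ (range (k + 1)).sup (g i j) := by
          refine Finset.sup_mono fun x hx => ?_
          rw [Finset.mem_Icc] at hx
          exact mem_range.2 (by omega)
        omega)
      (fun k _ _ => hO.Stri _ k) (fun k _ _ => hO.Sdeg _ k)
      (by rw [hO.Szero, hO.Sfst, tx_eq]) (hO.nrS ω (hB ω hω))
      (fun k h1 h2 => hO.pos ω (hB ω hω) k h1 h2) (hsh i hi j hj) (fun l hl => by
        have h5 := hgle i j l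
        have h6 := hsiz i hi j hj l hl
        omega)
      (cx F (fun i => c (i - 1)) ω') (by
        show (if 0 = 0 then F.t ω' else _) = _
        rw [if_pos rfl, et]) l l1 l2 (fun k k1 k2 => by
        have h2 := floor_near (a := J) (hk ⟨k - 1, by omega⟩ (by
          show k - 1 + 1 < l
          omega))
        simp only [Nat.sub_add_cancel k1] at h2
        rw [abs_sub_comm]
        exact h2)
    rw [abs_sub_comm]
    show |eval (cx F (fun i => c (i - 1)) ω') (D.PS i j (D.zS i j (ptr F J ω')) l) -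
      eval (cx F (fun i => c (i - 1)) ω) (D.PS i j (D.zS i j (ptr F J ω)) l)| ≤ _
    rw [← ez]
    exact h1
  · have hR := rcs_of (n := n) hq hr hv
    have h1 := hR.full hq hwM hi hj (fun ω (l : Fin (n - 1)) => ⌊(2 : ℝ) ^ J * F.x ω (c l)⌋)
    have h2 := hx i hi j hj
    have h3 : ∑ l ∈ range (n - 1), ((J : ℝ) - (D.nd c n sh w₀ z M g ρ).g i j (l + 1)) =
        ∑ l ∈ range (n - 1), ((J : ℝ) - (g i j l - sh (l + 1) : ℕ)) := by
      refine Finset.sum_congr rfl fun l _ => ?_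
      rw [hgnd i j (l + 1) (by omega), Nat.add_sub_cancel]
    have h5 : (k + (M + 1) ^ 3 * k) * (z : ℝ) = k * z + (M + 1) ^ 3 * (k * z) := by ring
    have h6 : (∑ l ∈ range (n - 1), ((J : ℝ) - (D.nd c n sh w₀ z M g ρ).g i j (l + 1))) *
        Real.log 2 - (k + (M + 1) ^ 3 * k) * z ≤
        CH q (fun ω (l : Fin (n - 1)) => ⌊(2 : ℝ) ^ J * F.x ω (c l)⌋)
          (fun ω => ((D.cd n ρ).lab2 w₀ z i j ω, F.T ω)) := by
      rw [h3, h5]
      linarith
    exact h6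
  · rw [hgnd i j l l1]
    have h5 := hgle i j (l - 1)
    have h6 := hsiz i hi j hj (l - 1) (by omega)
    rw [Nat.sub_add_cancel l1] at h5 h6
    omega

end Pool.MIC6
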