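import Pool.Agent.H6.MIC.NfC
import Pool.Agent.H40.MIC.GrdX
import Pool.Agent.H6.STAT.RateB
import Pool.Agent.H78.MIC.Asm
import Pool.Agent.H80.GEN.NumA
import Pool.Agent.H60.GEN.MicF
import Pool.Agent.H1.GEN.Low

/-!
# Nonfull rows of a cell, for a class

`nf_cls`: records with their numbers, the values of the labels and the exactness of the base give the
rows `NF1` of the cells of the real grid for every event of the class with small defect, if the rate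
of the target is not full in a box which contains the levels of the target.
-/

set_option autoImplicit false

namespace Pool.MIC6

open Finset MvPolynomial
open Pool.Agent.H49.Ent Pool.Agent.H32.Dense Pool.STK Pool.KS3 Pool.STAT Pool.STAT.CLO
open Pool.KA Pool.KSAT Pool.PB Pool.GEN Pool.K2S Pool.S6C Pool.GEN.N83

/-- The vector of the digits of the base determines all the other coordinates. -/
theorem rate_vj {m J n : ℕ} {F : Fam m J} {c : ℕ → Fin m} {q : F.Ω → ℝ} (h0 : ∀ ω, 0 ≤ q ω)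
    (hn : 1 ≤ n) (hcov : ∀ i : Fin m, i ≠ c (n - 1) → ∃ l < n - 1, c l = i)
    (hZ : ∀ ω ω', 0 < q ω → 0 < q ω' → F.Z ω = F.Z ω') (P Q : ℕ) :
    CH q (fun ω => ⌊(2 : ℝ) ^ Q * cx F (fun i => c (i - 1)) ω n⌋)
      (fun ω => (⌊(2 : ℝ) ^ P * cx F (fun i => c (i - 1)) ω n⌋,
        ((fun l : Fin (n - 1) => ⌊(2 : ℝ) ^ J * cx F (fun i => c (i - 1)) ω (l + 1)⌋), F.T ω))) ≤
    CH q (fun ω => F.X Q ω (c (n - 1)))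
      (fun ω => (F.X P ω (c (n - 1)), oth (c (n - 1)) J F (ptr F J ω))) := by
  have e1 : ∀ (p : ℕ) (ω : F.Ω), ⌊(2 : ℝ) ^ p * cx F (fun i => c (i - 1)) ω n⌋ =
      F.X p ω (c (n - 1)) := by
    intro p ω
    show ⌊(2 : ℝ) ^ p * (if n = 0 then F.t ω else F.x ω (c (n - 1)))⌋ = _
    rw [if_neg (by omega)]
    rfl
  simp only [e1]
  refine CH_mono_cond h0 fun ω ω' hω hω' e => ?_
  simp only [Prod.mk.injEq] at e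
  obtain ⟨e2, e3, e4⟩ := e
  have e5 : ∀ i : Fin m, i ≠ c (n - 1) → F.X J ω i = F.X J ω' i := by
    intro i hi
    obtain ⟨l, hl, rfl⟩ := hcov i hi
    have h1 := congrFun e3 ⟨l, hl⟩
    have h2 : ∀ ω : F.Ω, ⌊(2 : ℝ) ^ J * cx F (fun i => c (i - 1)) ω (l + 1)⌋ =
        F.X J ω (c l) := by
      intro ω
      show ⌊(2 : ℝ) ^ J * (if l + 1 = 0 then F.t ω else F.x ω (c (l + 1 - 1)))⌋ = _
      rw [if_neg (by omega), Nat.add_sub_cancel]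
      rfl
    rw [← h2, ← h2]
    exact h1
  refine Prod.ext e2 (Prod.ext ?_ (Prod.ext e4 (hZ ω ω' hω hω')))
  funext i
  show Function.update (F.X J ω) (c (n - 1)) 0 i = Function.update (F.X J ω') (c (n - 1)) 0 i
  by_cases hi : i = c (n - 1)
  · subst hi
    rw [Function.update_self, Function.update_self]
  · rw [Function.update_of_ne hi, Function.update_of_ne hi]
    exact e5 i hi

/-! ### The sizes for large `J` -/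

theorem sizY_ev {n M B : ℕ} (hB : 1 ≤ B) {ζ : ℝ} (hζ : 0 < ζ) {e : ℕ → ℕ → ℝ}
    {b : ℕ → ℕ → ℕ → ℝ} (he : ∀ i ≤ M, ∀ j ≤ M, 0 ≤ e i j)
    (hb : ∀ i ≤ M, ∀ j ≤ M, ∀ l < n, 0 < b i j l)
    (h : ∀ i ≤ M, ∀ j ≤ M, ∀ l < n, b i j l + e i j + (B * M + 1) * ζ < 1) (s₂ : ℕ) :
    ∃ J₁ : ℕ, ∀ J ≥ J₁, SizY n J (B * (M * up ζ J)) M s₂ (fun i j => ⌊e i j * J⌋₊)
      (fun i j l => ⌊b i j l * J⌋₊) := by
  have hM : M ≤ B * M := Nat.le_mul_of_pos_left M hB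
  obtain ⟨J₁, h1⟩ := siz_ev (n := n + 1) (M := B * M) (ζ := ζ) hζ
    (e := fun i j => e (min i M) (min j M)) (b := fun i j l => b (min i M) (min j M) l)
    (fun i _ j _ => he _ (min_le_right _ _) _ (min_le_right _ _))
    (fun i _ j _ l hl => hb _ (min_le_right _ _) _ (min_le_right _ _) l (by omega))
    (fun i _ j _ l hl => by
      have h2 := h _ (min_le_right i M) _ (min_le_right j M) l (by omega)
      push_cast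
      linarith) s₂
  refine ⟨J₁, fun J hJ i hi j hj l hl => ?_⟩
  have h2 := h1 J hJ i (hi.trans hM) j (hj.trans hM) l (by omega)
  simp only [min_eq_left hi, min_eq_left hj] at h2
  have h3 : B * (M * up ζ J) = B * M * up ζ J := (mul_assoc _ _ _).symm
  rw [h3]
  exact h2

theorem lev_ev {A₀ B₁ ζ : ℝ} (hA : 0 ≤ A₀) (hζ : 0 < ζ) (M s : ℕ) :
    ∃ J₁ : ℕ, ∀ J ≥ J₁, ∀ b : ℝ, A₀ + ζ ≤ b → b + (M + 1) * ζ ≤ B₁ →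
      (A₀ + ζ / 2) * J ≤ (⌊b * J⌋₊ - s : ℕ) ∧
      ((⌊b * J⌋₊ - s + M * up ζ J : ℕ) : ℝ) ≤ (B₁ - ζ / 2) * J := by
  obtain ⟨J₁, h1⟩ := exists_nat_gt (2 * (M + s + 1) / ζ : ℝ)
  refine ⟨J₁, fun J hJ b hb hb' => ?_⟩
  have h2 : (J₁ : ℝ) ≤ J := by exact_mod_cast hJ
  rw [div_lt_iff₀ hζ] at h1
  have hJ0 : (0 : ℝ) ≤ J := Nat.cast_nonneg J
  have h3 : 2 * (M + s + 1 : ℝ) ≤ ζ * J := by nlinarith
  have hM0 : (0 : ℝ) ≤ M := Nat.cast_nonneg M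
  have hs0 : (0 : ℝ) ≤ s := Nat.cast_nonneg s
  have hb0 : 0 ≤ b := by linarith
  have h4 : b * J < ⌊b * J⌋₊ + 1 := Nat.lt_floor_add_one _
  have h5 : (⌊b * J⌋₊ : ℝ) ≤ b * J := Nat.floor_le (by positivity)
  have h6 := mul_le_mul_of_nonneg_right hb hJ0
  have h7 := mul_le_mul_of_nonneg_right hb' hJ0
  constructor
  · have h8 : (⌊b * J⌋₊ : ℝ) ≤ (⌊b * J⌋₊ - s : ℕ) + s := by exact_mod_cast le_tsub_add
    nlinarith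
  · have h8 : ((⌊b * J⌋₊ - s : ℕ) : ℝ) ≤ ⌊b * J⌋₊ := by exact_mod_cast Nat.sub_le _ _
    have h9 := mul_le_mul_of_nonneg_left (up_le hζ.le J) hM0
    push_cast
    nlinarith

/-! ### One family -/

/-- **Nonfull rows** for one law, without any bound by the growth. -/
def NF0 (D : NDat2) (n z M B : ℕ) (h C₁ : ℝ) (q : D.Ω → ℝ) : Prop :=
  ∀ i ≤ M, ∀ j ≤ M, ∀ r U : ℕ, i + r + U ≤ M →
    CH q (D.nd n i j ((r + U) * z))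
      (fun ω => (D.nd n i j (r * z) ω,
        (D.vd n i j (B * ((r + U) * z)) ω, (D.s i j ω, D.T ω)))) ≤
      (1 - h) * (U * z) * Real.log 2 + C₁ * z

theorem NF0.nf1 {D : NDat2} {n z M B : ℕ} {h C₁ : ℝ} {q : D.Ω → ℝ} (hD : NF0 D n z M B h C₁ q)
    (gam : ℕ → ℝ) : D.NF1 n z M B gam h C₁ q :=
  fun i hi j hj r U h1 _ => hD i hi j hj r U h1

/-- **The rows for one family.** -/
theorem nf_fam0 (n K K' s₁ : ℕ) (sh : ℕ → ℕ) (hn : 1 ≤ n) (hK' : 1 ≤ K') (Λ : ℕ) {C₁ : ℝ}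
    (hC₁ : 0 ≤ C₁) : ∃ (B₀ s₂ : ℕ), 1 ≤ B₀ ∧ ∀ B ≥ B₀, ∀ M : ℕ, ∃ (κ₀ : ℝ) (z₀ : ℕ), 0 < κ₀ ∧
    ∀ {m J : ℕ} {F : Fam m J} {D : GDat F} {c : ℕ → Fin m} {a₀ w₀ z : ℕ} {e : ℕ → ℕ → ℕ}
    {g : ℕ → ℕ → ℕ → ℕ} {A : F.Ω → Prop} {R : ℕ → ℕ → Type} {ρ : (i j : ℕ) → LnT F → R i j}
    {lam gam : ℕ → ℝ} {k C₂ κ' a : ℝ},
    D.Ok c n K K' s₁ sh a₀ w₀ z M e g A → Inj c n →
    (∀ i : Fin m, i ≠ c (n - 1) → ∃ l < n - 1, c l = i) → z₀ ≤ z →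
    0 ≤ k → k + (M + 1) ^ 3 * k ≤ κ₀ → (∀ l, 1 ≤ l → l ≤ n → lam l + 2 * C₁ ≤ Λ) →
    (∀ i ≤ M, ∀ j ≤ M, ∀ l < n, sh (l + 1) ≤ g i j l) →
    (∀ i i' : ℕ, i ≤ i' → i' ≤ M → ∀ j ≤ M, ∀ l < n, g i j l ≤ g i' j l) →
    SizY n J (B * (M * z)) M s₂ e g →
    ∀ {q : F.Ω → ℝ}, IsLaw q → (∀ ω, 0 < q ω → A ω) →
    (∀ ω ω', 0 < q ω → 0 < q ω' → F.Z ω = F.Z ω') →
    RcF F ρ w₀ z M (k * z) (C₂ * z) q → ValF D ρ w₀ z M (k * z) q →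
    ExF F c n sh ρ w₀ z M g (k * z) q →
    (D.nd c n sh w₀ z M g ρ).Ok2 n K' J a₀ w₀ z M lam gam κ' C₁ q →
    (∀ P Q : ℕ, P ≤ Q → (∃ i ≤ M, ∃ j ≤ M, g i j (n - 1) - sh n ≤ P ∧
      Q ≤ g i j (n - 1) - sh n + M * z) →
      CH q (fun ω => F.X Q ω (c (n - 1)))
        (fun ω => (F.X P ω (c (n - 1)), oth (c (n - 1)) J F (ptr F J ω))) ≤
        (1 - a) * (((Q : ℝ) - P) * Real.log 2) + z) →
    NF0 (D.nd c n sh w₀ z M g ρ) n z M B a (2 * C₁ + 2) q := by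
  obtain ⟨L, s₂, hL, hnf⟩ := nfh_fam n K K' s₁ sh hK'
  obtain ⟨B₀, hB₀, hrow⟩ := nf_row n K' hn Λ hC₁ (by linarith : 0 ≤ L)
  refine ⟨B₀, s₂, hB₀, fun B hB M => ?_⟩
  obtain ⟨κ₀, z₀, hκ₀, hrow⟩ := hrow B hB M
  refine ⟨κ₀, z₀, hκ₀, ?_⟩
  intro m J F D c a₀ w₀ z e g A R ρ lam gam k C₂ κ' a hD hc hcov hz hk hk1 hlam hsh hmon hsiz q hq
    hA hZ hr hv hx hok hrate i hi j hj r U hrU
  have hT := hok.thin
  have hP := hok.top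
  have hMz : (M + 1) * z = M * z + z := by ring
  have hN := hnf hD hc (by omega) (by omega) hsh hsiz hq hA hr hv hx
  have hk0 : (0 : ℝ) ≤ k + (M + 1) ^ 3 * k := by positivity
  have hgn : ∀ i j l, 1 ≤ l → (D.nd c n sh w₀ z M g ρ).g i j l = g i j (l - 1) - sh l :=
    fun i j l l1 => CDat2.nd2_g _ _ _ _ _ _ _ l1
  have h1 := hrow hz hk0 hk1 le_rfl hlam hok hN (fun i i' hii hi' j hj l l1 l2 => by
    rw [hgn i j l l1, hgn i' j l l1]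
    exact Nat.sub_le_sub_right (hmon i i' hii hi' j hj (l - 1) (by omega)) _) i j r U
    (by omega) hj
  refine h1.trans ?_
  rw [hgn i j n hn]
  have h2 := rate_vj (J := J) (c := c) hq.nonneg hn hcov hZ (g i j (n - 1) - sh n + r * z)
    (g i j (n - 1) - sh n + (r + U) * z)
  have h3 : r * z ≤ (r + U) * z := Nat.mul_le_mul_right z (by omega)
  have h4 : (r + U) * z ≤ M * z := Nat.mul_le_mul_right z (by omega)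
  have h5 := hrate (g i j (n - 1) - sh n + r * z) (g i j (n - 1) - sh n + (r + U) * z)
    (by omega) ⟨i, hi, j, hj, by omega, by omega⟩
  have h6 : (((g i j (n - 1) - sh n + (r + U) * z : ℕ) : ℝ) -
      ((g i j (n - 1) - sh n + r * z : ℕ) : ℝ)) = U * z := by
    push_cast
    ring
  rw [h6] at h5
  have h7 := h2.trans h5
  have h8 : CH q (fun ω => ⌊(2 : ℝ) ^ (g i j (n - 1) - sh n + (r + U) * z) *
      (D.nd c n sh w₀ z M g ρ).X ω n⌋)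
      (fun ω => (⌊(2 : ℝ) ^ (g i j (n - 1) - sh n + r * z) * (D.nd c n sh w₀ z M g ρ).X ω n⌋,
        (vj (D.nd c n sh w₀ z M g ρ) n J ω, (D.nd c n sh w₀ z M g ρ).T ω))) ≤
      (1 - a) * (U * z * Real.log 2) + z := h7
  have h9 : (1 - a) * (U * z * Real.log 2) + z + (2 * C₁ + 1) * z =
      (1 - a) * (U * z) * Real.log 2 + (2 * C₁ + 2) * z := by ring
  rw [← h9]
  exact add_le_add_left h8 _

/-! ### A class -/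

/-- **The rows of the cells of the real grid, for a class**: all widths. -/
theorem nf_cls0 (n K K' s₁ : ℕ) (sh : ℕ → ℕ) (hn : 1 ≤ n) (hK' : 1 ≤ K') (Λ : ℕ) {C₁ : ℝ}
    (hC₁ : 0 ≤ C₁) : ∃ B₀ : ℕ, 1 ≤ B₀ ∧ ∀ B ≥ B₀, ∀ M : ℕ, ∃ k₀ : ℝ, 0 < k₀ ∧
    ∀ {m : ℕ} {S : PCl m} {X : LabX m} {c : ℕ → Fin m} {α ϖ ζ : ℝ} {e : ℕ → ℕ → ℝ} {b : ℕ → ℕ → ℕ → ℝ}
    {R : (J : ℕ) → Fam m J → ℕ → ℕ → Type}
    {ρ : (J : ℕ) → (F : Fam m J) → (i j : ℕ) → LnT F → R J F i j} {lam gam : ℕ → ℝ}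
    {k C₂ κ' h A₀ B₁ η : ℝ} {r : ℝ → ℝ},
    0 < ζ → 0 ≤ k → k ≤ k₀ → Inj c n →
    (∀ i : Fin m, i ≠ c (n - 1) → ∃ l < n - 1, c l = i) →
    (∀ l, 1 ≤ l → l ≤ n → lam l + 2 * C₁ ≤ Λ) →
    (∀ i ≤ M, ∀ j ≤ M, 0 ≤ e i j) → (∀ i ≤ M, ∀ j ≤ M, ∀ l < n, 0 < b i j l) →
    (∀ i ≤ M, ∀ j ≤ M, ∀ l < n, b i j l + e i j + (B * M + 1) * ζ < 1) →
    (∀ i i' : ℕ, i ≤ i' → i' ≤ M → ∀ j ≤ M, ∀ l < n, b i j l ≤ b i' j l) →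
    0 ≤ A₀ → B₁ ≤ 1 →
    (∀ i ≤ M, ∀ j ≤ M, A₀ + ζ ≤ b i j (n - 1) ∧ b i j (n - 1) + (M + 1) * ζ ≤ B₁) →
    0 ≤ h → h ≤ 1 → 0 ≤ η → η ≤ ζ / 2 → Pool.STR.NfB r h η A₀ B₁ →
    (∀ (τ : ℝ) (J : ℕ) (F : Fam m J) (A : F.Ω → Prop), S.St τ J F A → 0 < Pe F.p A) →
    Bas S (fun _ F _ => Zc F) → Pool.ALL.RateOf S (c (n - 1)) r →
    FldX S X c n K K' s₁ sh α ϖ ζ M e b (fun J F D q =>
      RcF F (ρ J F) (up ϖ J) (up ζ J) M (k * up ζ J) (C₂ * up ζ J) q ∧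
      ValF D (ρ J F) (up ϖ J) (up ζ J) M (k * up ζ J) q ∧
      ExF F c n sh (ρ J F) (up ϖ J) (up ζ J) M (fun i j l => ⌊b i j l * J⌋₊)
        (k * up ζ J) q) →
    FldX S X c n K K' s₁ sh α ϖ ζ M e b (fun J F D q =>
      (D.nd c n sh (up ϖ J) (up ζ J) M (fun i j l => ⌊b i j l * J⌋₊) (ρ J F)).Ok2 n K' J
        (up α J) (up ϖ J) (up ζ J) M lam gam κ' C₁ q) →
    FldX S X c n K K' s₁ sh α ϖ ζ M e b (fun J F D q =>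
      NF0 (D.nd c n sh (up ϖ J) (up ζ J) M (fun i j l => ⌊b i j l * J⌋₊) (ρ J F)) n
        (up ζ J) M B h (2 * C₁ + 2) q) := by
  obtain ⟨B₀, s₂, hB₀, hfam⟩ := nf_fam0 n K K' s₁ sh hn hK' Λ hC₁
  refine ⟨B₀, hB₀, fun B hB M => ?_⟩
  obtain ⟨κ₀, z₀, hκ₀, hfam⟩ := hfam B hB M
  have hM3 : (0 : ℝ) < 1 + (M + 1) ^ 3 := by positivity
  refine ⟨κ₀ / (1 + (M + 1) ^ 3), by positivity, ?_⟩
  intro m S X c α ϖ ζ e b R ρ lam gam k C₂ κ' h A₀ B₁ η r hζ hk hk1 hc hcov hlam he hb hsz hmon hA₀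
    hB₁ hlev hh hh1 hη hη1 hnf hpos hZ hR hr hok
  rw [le_div_iff₀ hM3] at hk1
  have hk2 : k + (M + 1) ^ 3 * k ≤ κ₀ := by linarith
  have hAB : A₀ ≤ B₁ := by
    obtain ⟨l1, l2⟩ := hlev 0 (Nat.zero_le M) 0 (Nat.zero_le M)
    have : (0 : ℝ) ≤ (M + 1) * ζ := by positivity
    linarith
  have hrb := rate_box hpos (fun J F ω => oth (c (n - 1)) J F (ptr F J ω)) (c (n - 1))
    (ρ := r) hR.num hA₀ hAB hB₁ hh hh1 hη hnf (e := ζ / 2) (by positivity)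
  have hP : Bas S (fun _ F A => 0 < Pe F.p A) := ⟨1, one_pos, 0, fun J _ F A hA => hpos 1 J F A hA⟩
  obtain ⟨J₁, hlv⟩ := lev_ev (B₁ := B₁) hA₀ hζ M (sh n)
  obtain ⟨J₂, hflo⟩ := flo_ev hb sh
  obtain ⟨J₃, hsi⟩ := sizY_ev (hB₀.trans hB) hζ he hb hsz s₂
  obtain ⟨J₄, hJ₄⟩ := exists_nat_ge ((z₀ : ℝ) / ζ)
  refine Bas.mono (max (max J₁ J₂) (max J₃ J₄)) (Bas.and (Bas.and hP hZ)
    (Bas.and (Bas.and hr hok) hrb)) fun J hJ F A hA D hD hX => ?_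
  obtain ⟨⟨f1, f2⟩, ⟨f3, f6⟩, f7⟩ := hA
  obtain ⟨f3, f4, f5⟩ := f3 D hD hX
  have j1 : J₁ ≤ J := ((le_max_left _ _).trans (le_max_left _ _)).trans hJ
  have j2 : J₂ ≤ J := ((le_max_right _ _).trans (le_max_left _ _)).trans hJ
  have j3 : J₃ ≤ J := ((le_max_left _ _).trans (le_max_right _ _)).trans hJ
  have j4 : J₄ ≤ J := ((le_max_right _ _).trans (le_max_right _ _)).trans hJ
  have hz : z₀ ≤ up ζ J := by
    have h8 : (J₄ : ℝ) ≤ J := by exact_mod_cast j4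
    have h9 : (z₀ : ℝ) / ζ ≤ J := hJ₄.trans h8
    rw [div_le_iff₀ hζ] at h9
    have h10 : ζ * J ≤ up ζ J := up_ge ζ J
    have h11 : (z₀ : ℝ) ≤ up ζ J := by linarith only [h9, h10]
    exact_mod_cast h11
  have hJ0 : (0 : ℝ) ≤ J := Nat.cast_nonneg J
  refine hfam hD hc hcov hz hk hk2 hlam
    (fun i hi j hj l hl => hflo J j2 i hi j hj l hl)
    (fun i i' hii hi' j hj l hl => Nat.floor_le_floor
      (mul_le_mul_of_nonneg_right (hmon i i' hii hi' j hj l hl) hJ0))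
    (hsi J j3) (isLaw_cond F.isLaw f1) (fun ω hω => Pool.PB.End.of_cond_pos hω)
    (fun ω ω' hω hω' => f2 ω ω' ((cond_pos_iff F.isLaw.nonneg _ _ _).1 hω).1
      ((cond_pos_iff F.isLaw.nonneg _ _ _).1 hω').1) f3 f4 f5 (f6 D hD hX) ?_
  rintro P Q hPQ ⟨i, hi, j, hj, k1, k2⟩
  obtain ⟨l1, l2⟩ := hlev i hi j hj
  obtain ⟨m1, m2⟩ := hlv J j1 _ l1 l2
  have k1' : ((⌊b i j (n - 1) * J⌋₊ - sh n : ℕ) : ℝ) ≤ P := by exact_mod_cast k1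
  have k2' : (Q : ℝ) ≤ ((⌊b i j (n - 1) * J⌋₊ - sh n + M * up ζ J : ℕ) : ℝ) := by
    exact_mod_cast k2
  refine (f7 P Q (m1.trans k1') hPQ (k2'.trans m2)).trans ?_
  have h10 : ζ * J ≤ up ζ J := up_ge ζ J
  have h11 : (η + ζ / 2) * J ≤ ζ * J := mul_le_mul_of_nonneg_right (by linarith) hJ0
  linarith


/-- **The rows of the cells of the real grid, for a class.** -/
theorem nf_cls (n K K' s₁ : ℕ) (sh : ℕ → ℕ) (hn : 1 ≤ n) (hK' : 1 ≤ K') (Λ : ℕ) {C₁ : ℝ}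
    (hC₁ : 0 ≤ C₁) : ∃ B₀ : ℕ, 1 ≤ B₀ ∧ ∀ B ≥ B₀, ∀ M : ℕ, ∃ k₀ : ℝ, 0 < k₀ ∧
    ∀ {m : ℕ} {S : PCl m} {X : LabX m} {c : ℕ → Fin m} {α ϖ ζ : ℝ} {e : ℕ → ℕ → ℝ} {b : ℕ → ℕ → ℕ → ℝ}
    {R : (J : ℕ) → Fam m J → ℕ → ℕ → Type}
    {ρ : (J : ℕ) → (F : Fam m J) → (i j : ℕ) → LnT F → R J F i j} {lam gam : ℕ → ℝ}
    {k C₂ κ' h A₀ B₁ η : ℝ} {r : ℝ → ℝ},
    0 < ζ → 0 ≤ k → k ≤ k₀ → Inj c n →
    (∀ i : Fin m, i ≠ c (n - 1) → ∃ l < n - 1, c l = i) →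
    (∀ l, 1 ≤ l → l ≤ n → lam l + 2 * C₁ ≤ Λ) →
    (∀ i ≤ M, ∀ j ≤ M, 0 ≤ e i j) → (∀ i ≤ M, ∀ j ≤ M, ∀ l < n, 0 < b i j l) →
    (∀ i ≤ M, ∀ j ≤ M, ∀ l < n, b i j l + e i j + (B * M + 1) * ζ < 1) →
    (∀ i i' : ℕ, i ≤ i' → i' ≤ M → ∀ j ≤ M, ∀ l < n, b i j l ≤ b i' j l) →
    0 ≤ A₀ → B₁ ≤ 1 →
    (∀ i ≤ M, ∀ j ≤ M, A₀ + ζ ≤ b i j (n - 1) ∧ b i j (n - 1) + (M + 1) * ζ ≤ B₁) →
    0 ≤ h → h ≤ 1 → 0 ≤ η → η ≤ ζ / 2 → Pool.STR.NfB r h η A₀ B₁ →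
    (∀ (τ : ℝ) (J : ℕ) (F : Fam m J) (A : F.Ω → Prop), S.St τ J F A → 0 < Pe F.p A) →
    Bas S (fun _ F _ => Zc F) → Pool.ALL.RateOf S (c (n - 1)) r →
    FldX S X c n K K' s₁ sh α ϖ ζ M e b (fun J F D q =>
      RcF F (ρ J F) (up ϖ J) (up ζ J) M (k * up ζ J) (C₂ * up ζ J) q ∧
      ValF D (ρ J F) (up ϖ J) (up ζ J) M (k * up ζ J) q ∧
      ExF F c n sh (ρ J F) (up ϖ J) (up ζ J) M (fun i j l => ⌊b i j l * J⌋₊)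
        (k * up ζ J) q) →
    FldX S X c n K K' s₁ sh α ϖ ζ M e b (fun J F D q =>
      (D.nd c n sh (up ϖ J) (up ζ J) M (fun i j l => ⌊b i j l * J⌋₊) (ρ J F)).Ok2 n K' J
        (up α J) (up ϖ J) (up ζ J) M lam gam κ' C₁ q) →
    FldX S X c n K K' s₁ sh α ϖ ζ M e b (fun J F D q =>
      (D.nd c n sh (up ϖ J) (up ζ J) M (fun i j l => ⌊b i j l * J⌋₊) (ρ J F)).NF1 n
        (up ζ J) M B gam h (2 * C₁ + 2) q) := by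
  obtain ⟨B₀, hB₀, h0⟩ := nf_cls0 n K K' s₁ sh hn hK' Λ hC₁
  refine ⟨B₀, hB₀, fun B hB M => ?_⟩
  obtain ⟨k₀, hk₀, h0⟩ := h0 B hB M
  refine ⟨k₀, hk₀, ?_⟩
  intro m S X c α ϖ ζ e b R ρ lam gam k C₂ κ' h A₀ B₁ η r h1 h2 h3 h4 h5 h6 h7 h8 h9 h10 h11 h12
    h13 h14 h15 h16 h17 h18 h19 h20 h21 h22 h23
  exact (h0 h1 h2 h3 h4 h5 h6 h7 h8 h9 h10 h11 h12 h13 h14 h15 h16 h17 h18 h19 h20 h21 h22
    h23).mono 0 fun _ _ _ _ _ h => h.nf1 gam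

end Pool.MIC6
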