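import Pool.Agent.H6.MIC.Nf

/-!
# Nonfull rows of a cell from the rate of the vertical: one row
-/

set_option autoImplicit false

namespace Pool.MIC6

open Finset MvPolynomial
open Pool.Agent.H49.Ent Pool.Agent.H32.Dense Pool.STK Pool.KS3 Pool.STAT Pool.STAT.CLO
open Pool.BFL (Pl CB Pb P2 MC alt)

variable {D : NDat2} {n K J a₀ w₀ z M Y : ℕ} {lam gam : ℕ → ℝ} {κ κ' C₁ L₀ : ℝ} {q : D.Ω → ℝ}

/-! ### The row -/

theorem det_nd (i j : ℕ) {r p : ℕ} (hr : r ≤ p) : Det q (D.nd n i j p) (D.nd n i j r) := by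
  obtain ⟨k, rfl⟩ := Nat.exists_eq_add_of_le hr
  intro ω ω' _ _ e
  have h : ∀ ω : D.Ω, D.nd n i j r ω = D.nd n i j (r + k) ω / 2 ^ k := fun ω => by
    unfold NDat2.nd
    rw [← add_assoc]
    exact Pool.RM.floor_div_pow _ _ _
  rw [h ω, h ω', e]

/-- The levels grow by `lam l` times the number of the steps. -/
theorem lev_step (hO : D.Ok2 n K J a₀ w₀ z M lam gam κ' C₁ q) {i s j l : ℕ} (hi : i + s ≤ M)
    (hj : j ≤ M) (l1 : 1 ≤ l) (l2 : l ≤ n) :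
    |(D.g (i + s) j l : ℝ) - D.g i j l - lam l * s * z| ≤ 2 * C₁ * z := by
  have h1 := hO.hom (i + s) hi j hj l l1 l2
  have h2 := hO.hom i (by omega) j hj l l1 l2
  push_cast at h1
  rw [abs_le] at h1 h2 ⊢
  constructor <;> nlinarith

/-- The sum of the terms of the base. -/
theorem sum_base {m J : ℕ} {g g' : ℕ → ℕ} {d : ℕ} {a b : ℝ} :
    ∑ l ∈ range m, (((J : ℝ) - (g (l + 1) + d : ℕ)) * a + b) +
      ∑ l ∈ range m, (((g (l + 1) + d : ℕ) : ℝ) - g' (l + 1)) * a -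
      (∑ l ∈ range m, ((J : ℝ) - g' (l + 1))) * a = m * b := by
  rw [Finset.sum_add_distrib, Finset.sum_const, Finset.card_range, nsmul_eq_mul,
    ← Finset.sum_mul, ← Finset.sum_mul]
  have h : ∑ l ∈ range m, ((J : ℝ) - (g (l + 1) + d : ℕ)) +
      ∑ l ∈ range m, (((g (l + 1) + d : ℕ) : ℝ) - g' (l + 1)) =
      ∑ l ∈ range m, ((J : ℝ) - g' (l + 1)) := by
    rw [← Finset.sum_add_distrib]
    exact Finset.sum_congr rfl fun l _ => by ring
  rw [← h]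
  ring

/-- The error terms. -/
theorem row_err {n B M s z d : ℕ} {ℓ κ κ₀ C C' E V : ℝ} (hℓ : 0 ≤ ℓ) (hC : 0 ≤ C)
    (hC' : C' = ((n - 1 : ℕ) : ℝ) * ℓ / Real.log 2 + C)
    (hE : E = ((B + 1) * M : ℕ) + Real.log 9) (hV : V = (n : ℝ) * (n * E))
    (hκ₀ : κ₀ = Real.log 2 / (8 * (V + 1))) (hκ0 : 0 ≤ κ) (hκ : κ ≤ κ₀) (hz : 1 ≤ z)
    (hd : d + s * z ≤ (B + 1) * M * z)
    (hzz : 4 * (V * C' + (n + 2) * ℓ + n * Real.log 9) + 1 ≤ z) :
    2 * ℓ + ((n - 1 : ℕ) : ℝ) * ℓ + n * Real.log 9 + κ * z +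
      n * (n * ((κ * z + ((n - 1 : ℕ) : ℝ) * ℓ) / (z * Real.log 2) + C / z) *
        ((d + s * z : ℕ) * Real.log 2 + Real.log 9)) ≤ z := by
  have hl2 : 0 < Real.log 2 := Real.log_pos one_lt_two
  have hl21 : Real.log 2 ≤ 1 := by
    have := Real.log_two_lt_d9
    linarith
  have hl9 : 0 < Real.log 9 := Real.log_pos (by norm_num)
  have hz1 : (1 : ℝ) ≤ z := by exact_mod_cast hz
  have hzp : (0 : ℝ) < z := by linarith
  have hC'0 : 0 ≤ C' := by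
    rw [hC']
    positivity
  have hE0 : 0 ≤ E := by
    rw [hE]
    positivity
  have hV0 : 0 ≤ V := by
    rw [hV]
    positivity
  have a1 : (κ * z + ((n - 1 : ℕ) : ℝ) * ℓ) / (z * Real.log 2) + C / z =
      κ / Real.log 2 + C' / z := by
    rw [hC']
    field_simp
    ring
  have a2 : ((d + s * z : ℕ) : ℝ) * Real.log 2 + Real.log 9 ≤ E * z := by
    have h1 : ((d + s * z : ℕ) : ℝ) ≤ ((B + 1) * M : ℕ) * z := by exact_mod_cast hd
    have h2 : ((d + s * z : ℕ) : ℝ) * Real.log 2 ≤ ((d + s * z : ℕ) : ℝ) * 1 :=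
      mul_le_mul_of_nonneg_left hl21 (Nat.cast_nonneg _)
    have h3 : Real.log 9 * 1 ≤ Real.log 9 * z := mul_le_mul_of_nonneg_left hz1 hl9.le
    rw [hE]
    linarith
  have a3 : n * (n * (κ / Real.log 2 + C' / z) * ((d + s * z : ℕ) * Real.log 2 + Real.log 9)) ≤
      V * (κ / Real.log 2 * z + C') := by
    have h1 : (κ / Real.log 2 + C' / z) * ((d + s * z : ℕ) * Real.log 2 + Real.log 9) ≤
        (κ / Real.log 2 + C' / z) * (E * z) := mul_le_mul_of_nonneg_left a2 (by positivity)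
    have h2 : (κ / Real.log 2 + C' / z) * (E * z) = E * (κ / Real.log 2 * z + C') := by
      field_simp
    rw [h2] at h1
    have h3 := mul_le_mul_of_nonneg_left h1 (by positivity : (0 : ℝ) ≤ (n : ℝ) * n)
    rw [hV]
    linarith
  have a4 : V * (κ / Real.log 2 * z) ≤ z / 8 := by
    have h1 : κ / Real.log 2 ≤ 1 / (8 * (V + 1)) := by
      rw [div_le_iff₀ hl2]
      refine hκ.trans (le_of_eq ?_)
      rw [hκ₀]
      ring
    have h2 : V * (κ / Real.log 2 * z) ≤ V * (1 / (8 * (V + 1)) * z) :=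
      mul_le_mul_of_nonneg_left (mul_le_mul_of_nonneg_right h1 hzp.le) hV0
    refine h2.trans ?_
    have h3 : V * (1 / (8 * (V + 1)) * z) = V / (V + 1) * (z / 8) := by
      field_simp
    rw [h3]
    have h4 : V / (V + 1) ≤ 1 := by
      rw [div_le_one (by linarith)]
      linarith
    calc V / (V + 1) * (z / 8) ≤ 1 * (z / 8) := mul_le_mul_of_nonneg_right h4 (by positivity)
      _ = z / 8 := one_mul _
  have a5 : κ * z ≤ z / 8 := by
    have h1 : κ ≤ 1 / 8 := by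
      refine hκ.trans ?_
      rw [hκ₀, div_le_div_iff₀ (by positivity) (by norm_num)]
      nlinarith
    calc κ * z ≤ 1 / 8 * z := mul_le_mul_of_nonneg_right h1 hzp.le
      _ = z / 8 := by ring
  have a6 : ((n - 1 : ℕ) : ℝ) * ℓ + 2 * ℓ ≤ (n + 2) * ℓ := by
    have h1 : ((n - 1 : ℕ) : ℝ) ≤ n := by exact_mod_cast Nat.sub_le n 1
    nlinarith
  rw [a1]
  have a7 : V * (κ / Real.log 2 * z + C') = V * (κ / Real.log 2 * z) + V * C' := by ring
  rw [a7] at a3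
  linarith

/-- **The row**, one pair. -/
theorem nf_row (n K : ℕ) (hn : 1 ≤ n) (Λ : ℕ) {C₁ L₀ : ℝ} (hC₁ : 0 ≤ C₁) (hL₀ : 0 ≤ L₀) :
    ∃ B₀ : ℕ, 1 ≤ B₀ ∧ ∀ B ≥ B₀, ∀ M : ℕ, ∃ (κ₀ : ℝ) (z₀ : ℕ), 0 < κ₀ ∧
    ∀ {D : NDat2} {J a₀ w₀ z Y : ℕ} {lam gam : ℕ → ℝ} {κ κ' : ℝ} {q : D.Ω → ℝ}, z₀ ≤ z →
      0 ≤ κ → κ ≤ κ₀ → B * (M * z) ≤ Y → (∀ l, 1 ≤ l → l ≤ n → lam l + 2 * C₁ ≤ Λ) →
      D.Ok2 n K J a₀ w₀ z M lam gam κ' C₁ q → NfH D n J z M Y L₀ κ q →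
      (∀ i i' : ℕ, i ≤ i' → i' ≤ M → ∀ j ≤ M, ∀ l, 1 ≤ l → l ≤ n → D.g i j l ≤ D.g i' j l) →
      ∀ i j r U : ℕ, i + (r + U) ≤ M → j ≤ M →
        CH q (D.nd n i j ((r + U) * z)) (fun ω => (D.nd n i j (r * z) ω,
          (D.vd n i j (B * ((r + U) * z)) ω, (D.s i j ω, D.T ω)))) ≤
        CH q (fun ω => ⌊(2 : ℝ) ^ (D.g i j n + (r + U) * z) * D.X ω n⌋)
          (fun ω => (⌊(2 : ℝ) ^ (D.g i j n + r * z) * D.X ω n⌋, (vj D n J ω, D.T ω))) +
          (2 * C₁ + 1) * z := by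
  obtain ⟨C, hC, hcnt⟩ := nf_count n K hn
  refine ⟨n * Λ + n + n * C + Λ + 1, by omega, ?_⟩
  intro B hB M
  have hl2 : 0 < Real.log 2 := Real.log_pos one_lt_two
  have hl21 : Real.log 2 ≤ 1 := by
    have := Real.log_two_lt_d9
    linarith
  have hl9 : 0 < Real.log 9 := Real.log_pos (by norm_num)
  obtain ⟨ℓ, hℓ⟩ : ∃ ℓ : ℝ, ℓ = Real.log (5 + 2 * L₀) := ⟨_, rfl⟩
  have hℓ0 : 0 ≤ ℓ := by
    rw [hℓ]
    exact Real.log_nonneg (by linarith)
  obtain ⟨C', hC'⟩ : ∃ C' : ℝ, C' = ((n - 1 : ℕ) : ℝ) * ℓ / Real.log 2 + C := ⟨_, rfl⟩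
  have hC'0 : 0 ≤ C' := by
    rw [hC']
    positivity
  obtain ⟨E, hE⟩ : ∃ E : ℝ, E = ((B + 1) * M : ℕ) + Real.log 9 := ⟨_, rfl⟩
  have hE0 : 0 ≤ E := by
    rw [hE]
    positivity
  obtain ⟨V, hV⟩ : ∃ V : ℝ, V = (n : ℝ) * (n * E) := ⟨_, rfl⟩
  have hV0 : 0 ≤ V := by
    rw [hV]
    positivity
  obtain ⟨κ₀, hκ₀⟩ : ∃ κ₀ : ℝ, κ₀ = Real.log 2 / (8 * (V + 1)) := ⟨_, rfl⟩
  obtain ⟨z₀, hz₀⟩ := exists_nat_ge (4 * (V * C' + (n + 2) * ℓ + n * Real.log 9) + 1)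
  refine ⟨κ₀, z₀, by rw [hκ₀]; positivity, ?_⟩
  intro D J a₀ w₀ z Y lam gam κ κ' q hz hκ hκ1 hY hlam hO h hm i j r U hi hj
  have hq := hO.isLaw
  have hzR : (z₀ : ℝ) ≤ z := by exact_mod_cast hz
  have hvc : 0 ≤ V * C' + (n + 2) * ℓ + n * Real.log 9 := by positivity
  have hz1R : (1 : ℝ) ≤ z := by linarith
  have hz1 : 1 ≤ z := by exact_mod_cast hz1R
  have hzp : (0 : ℝ) < z := by linarith
  rcases Nat.eq_zero_or_pos (r + U) with h0 | hs
  · have e0 : r = 0 := by omega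
    have e1 : U = 0 := by omega
    subst e0 e1
    have h1 : CH q (D.nd n i j ((0 + 0) * z)) (fun ω => (D.nd n i j (0 * z) ω,
        (D.vd n i j (B * ((0 + 0) * z)) ω, (D.s i j ω, D.T ω)))) = 0 :=
      CH_eq_zero hq.nonneg fun ω ω' _ _ e => (Prod.ext_iff.1 e).1
    rw [h1]
    exact add_nonneg (CH_nonneg hq.nonneg _ _) (by positivity)
  obtain ⟨s, hs'⟩ : ∃ s, s = r + U := ⟨_, rfl⟩
  rw [← hs'] at hs hi ⊢
  have hsz : 1 ≤ s * z := Nat.mul_pos hs hz1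
  have hzsz : z ≤ s * z := Nat.le_mul_of_pos_left z hs
  have hszM : s * z ≤ M * z := Nat.mul_le_mul_right z (by omega)
  have hrs : r * z ≤ s * z := Nat.mul_le_mul_right z (by omega)
  obtain ⟨d, hd⟩ : ∃ d, d = B * (s * z) := ⟨_, rfl⟩
  rw [← hd]
  have hdY : d ≤ Y := by
    rw [hd]
    exact (Nat.mul_le_mul_left B hszM).trans hY
  have hB1 : 1 ≤ B := by omega
  have hszd : s * z ≤ d := by
    rw [hd]
    exact Nat.le_mul_of_pos_left _ hB1
  have hcond : n * (Λ * (s * z) + 1 + C * z) + Λ * (s * z) ≤ d := by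
    rw [hd]
    calc n * (Λ * (s * z) + 1 + C * z) + Λ * (s * z) ≤
          n * (Λ * (s * z) + s * z + C * (s * z)) + Λ * (s * z) := by
          refine Nat.add_le_add_right (Nat.mul_le_mul_left n ?_) _
          have := Nat.mul_le_mul_left C hzsz
          omega
      _ = (n * Λ + n + n * C + Λ) * (s * z) := by ring
      _ ≤ B * (s * z) := Nat.mul_le_mul_right _ (by omega)
  have hg : ∀ l, 1 ≤ l → l ≤ n → D.g i j l ≤ D.g (i + s) j l ∧
      D.g (i + s) j l ≤ D.g i j l + Λ * (s * z) := by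
    intro l l1 l2
    refine ⟨hm i (i + s) (by omega) hi j hj l l1 l2, ?_⟩
    have h1 := (abs_le.1 (lev_step hO hi hj l1 l2)).2
    have h2 := hlam l l1 l2
    have h3 : (1 : ℝ) ≤ s := by exact_mod_cast hs
    have h4 : (D.g (i + s) j l : ℝ) ≤ D.g i j l + Λ * (s * z) := by
      have h5 : lam l * s * z + 2 * C₁ * z ≤ (lam l + 2 * C₁) * (s * z) := by
        have : C₁ * z * 1 ≤ C₁ * z * s := mul_le_mul_of_nonneg_left h3 (by positivity)
        nlinarith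
      have h6 : (lam l + 2 * C₁) * (s * z) ≤ Λ * (s * z) :=
        mul_le_mul_of_nonneg_right h2 (by positivity)
      linarith
    exact_mod_cast h4
  have t1 := hcnt hO h hL₀ hκ (Nat.le_add_right i s) hi hj hg hz1 (by
    have h1 := hzsz.trans (hszM.trans (Nat.le_mul_of_pos_left (M * z) hB1))
    exact h1.trans hY) (d := d) (p := s * z) hcond
  have hs1 := det_s hO (Nat.le_add_right i s) hi hj
  have t2 := nf_abs hq.nonneg (D.nd n i j (s * z)) (D.nd n i j (r * z)) (D.vd n i j d) (vj D n J)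
    (fun ω => (D.s i j ω, D.T ω)) (fun ω => (D.c (i + s) j ω, D.T ω)) (det_nd i j hrs)
  have t3 := h.rate (i := i) (j := j) hq hL₀ hn (by omega) hj hrs (hszd.trans hdY)
  have t4 := h.ch_vj hq hL₀ (by omega) hj hdY
    (y := fun ω => (D.vd n i j d ω, (D.s i j ω, D.T ω))) (fun _ _ _ _ e => e)
  have t5 : CH q (fun ω => (D.s i j ω, D.T ω)) (fun ω => (D.c (i + s) j ω, D.T ω)) = 0 :=
    CH_eq_zero hq.nonneg fun ω ω' a b e => Prod.ext (hs1 ω ω' a b e) (Prod.ext_iff.1 e).2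
  have t6 := h.ex (i + s) hi j hj
  have t7 : max 0 (((D.g i j n + s * z : ℕ) : ℝ) - D.g (i + s) j n) * Real.log 2 ≤
      2 * C₁ * z := by
    have h1 := (abs_le.1 (lev_step hO hi hj hn le_rfl)).1
    have h2 : (s : ℝ) * z ≤ lam n * s * z := by
      have := mul_le_mul_of_nonneg_right (hO.lam_ge n) (by positivity : (0 : ℝ) ≤ s * z)
      linarith
    have h3 : max 0 (((D.g i j n + s * z : ℕ) : ℝ) - D.g (i + s) j n) ≤ 2 * C₁ * z := by
      refine max_le (by positivity) ?_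
      push_cast
      linarith
    calc max 0 (((D.g i j n + s * z : ℕ) : ℝ) - D.g (i + s) j n) * Real.log 2 ≤
          2 * C₁ * z * Real.log 2 := mul_le_mul_of_nonneg_right h3 hl2.le
      _ ≤ 2 * C₁ * z * 1 := mul_le_mul_of_nonneg_left hl21 (by positivity)
      _ = 2 * C₁ * z := mul_one _
  rw [← hℓ] at t1 t3 t4
  have t8 := sum_base (m := n - 1) (J := J) (g := D.g i j)
    (g' := D.g (i + s) j) (d := d) (a := Real.log 2) (b := ℓ)
  have t9 := row_err (s := s) (d := d) hℓ0 (Nat.cast_nonneg C) hC' hE hV hκ₀ hκ hκ1 hz1 (by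
    rw [hd]
    have h1 := Nat.mul_le_mul_left B hszM
    calc B * (s * z) + s * z ≤ B * (M * z) + M * z := Nat.add_le_add h1 hszM
      _ = (B + 1) * M * z := by ring) (hz₀.trans hzR)
  linarith

end Pool.MIC6
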